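import Pool.Agent.Q316.EM.Petri

/-!
# Two-component even matrix grammars

Definitions, and the theorem that under mode 0 the lengths (or weights) of the generated words in a
regular set contain an infinite arithmetic progression if they are unbounded.
-/

set_option autoImplicit false

namespace Pool.Agent.Q316.EM

open List
open Relation (ReflTransGen)

/-- The symbols of a sentential form: nonterminals of component 1, nonterminals of component 2,
and terminals. -/
inductive Sy (N1 N2 T : Type) : Type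
  | a (A : N1) : Sy N1 N2 T
  | b (B : N2) : Sy N1 N2 T
  | t (x : T) : Sy N1 N2 T

/-- the inclusion of `N₁ ∪ T` -/
def e1 {N1 N2 T : Type} : N1 ⊕ T → Sy N1 N2 T
  | .inl A => .a A
  | .inr x => .t x

/-- the inclusion of `N₂ ∪ T` -/
def e2 {N1 N2 T : Type} : N2 ⊕ T → Sy N1 N2 T
  | .inl B => .b B
  | .inr x => .t x

/-- the word `v₁ v₂` for words `v₁` over `N₁ ∪ T` and `v₂` over `N₂ ∪ T` -/
def word {N1 N2 T : Type} (v : List (N1 ⊕ T) × List (N2 ⊕ T)) : List (Sy N1 N2 T) :=
  v.1.map e1 ++ v.2.map e2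

/-- A two-component even matrix grammar: nonterminals `N1`, `N2`, start rules `(S) → (v)` (`term`)
and `(S) → (v₁ v₂)` (`start`), and rules `(A₁, A₂) → (v₁, v₂)`. -/
structure EG (T : Type) where
  N1 : Type
  N2 : Type
  fin1 : Finite N1
  fin2 : Finite N2
  term : Set (List T)
  start : Set (List (N1 ⊕ T) × List (N2 ⊕ T))
  rules : Set ((N1 × N2) × List (N1 ⊕ T) × List (N2 ⊕ T))
  finT : term.Finite
  finS : start.Finite
  finR : rules.Finite
  hstart : ∀ v ∈ start, (∃ A, Sum.inl A ∈ v.1) ∧ ∃ B, Sum.inl B ∈ v.2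

variable {T : Type}

/-- A step: `u₁A₁w₁u₂A₂w₂` becomes `u₁v₁w₁u₂v₂w₂` (mode 0); in mode 1 (`lm = true`) in addition
`Aᵢ` does not occur in `uᵢ`. -/
def EG.Step (G : EG T) (lm : Bool) (x y : List (Sy G.N1 G.N2 T)) : Prop :=
  ∃ A1 A2 v1 v2 u1 w1 u2 w2, ((A1, A2), v1, v2) ∈ G.rules ∧
    x = word (u1 ++ Sum.inl A1 :: w1, u2 ++ Sum.inl A2 :: w2) ∧
    y = word (u1 ++ v1 ++ w1, u2 ++ v2 ++ w2) ∧
    (lm = true → Sum.inl A1 ∉ u1 ∧ Sum.inl A2 ∉ u2)

/-- The generated language: the start symbol is rewritten first, and it does not occur again. -/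
def EG.lang (G : EG T) (lm : Bool) : Set (List T) :=
  {w | w ∈ G.term ∨ ∃ v ∈ G.start, ReflTransGen (G.Step lm) (word v) (w.map Sy.t)}

/-- The languages over `T` generated by two-component even matrix grammars under mode 0
(`lm = false`) or mode 1 (`lm = true`). -/
def EM (lm : Bool) (T : Type) : Set (Set (List T)) := {L | ∃ G : EG T, L = G.lang lm}

/-! ### Annotated words -/

section

variable {N1 N2 σ : Type}

abbrev AS (N σ : Type) := N × (σ → σ)

/-- the action of an annotated symbol on the states -/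
def act (δ : σ → T → σ) : Sy (AS N1 σ) (AS N2 σ) T → σ → σ
  | .a p => p.2
  | .b p => p.2
  | .t x => fun q => δ q x

def val (δ : σ → T → σ) (X : List (Sy (AS N1 σ) (AS N2 σ) T)) : σ → σ :=
  fun q => X.foldl (fun q s => act δ s q) q

theorem val_append (δ : σ → T → σ) (X Y : List (Sy (AS N1 σ) (AS N2 σ) T)) :
    val δ (X ++ Y) = fun q => val δ Y (val δ X q) := by
  funext q
  simp [val]

def fg : Sy (AS N1 σ) (AS N2 σ) T → Sy N1 N2 T
  | .a p => .a p.1
  | .b p => .b p.1
  | .t x => .t x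

def fs {N : Type} : (AS N σ) ⊕ T → N ⊕ T
  | .inl p => .inl p.1
  | .inr x => .inr x

open Classical in
/-- the number of the occurrences of the annotated nonterminals -/
noncomputable def mark (X : List (Sy (AS N1 σ) (AS N2 σ) T)) : AS N1 σ ⊕ AS N2 σ → ℕ
  | .inl p => X.countP (fun s => decide (s = .a p))
  | .inr p => X.countP (fun s => decide (s = .b p))

theorem mark_append (X Y : List (Sy (AS N1 σ) (AS N2 σ) T)) :
    mark (X ++ Y) = mark X + mark Y := by
  funext p
  cases p <;> simp [mark]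

def wS (wt : T → ℕ) : Sy (AS N1 σ) (AS N2 σ) T → ℕ
  | .a _ => 0
  | .b _ => 0
  | .t x => wt x

def W (wt : T → ℕ) (X : List (Sy (AS N1 σ) (AS N2 σ) T)) : ℕ := (X.map (wS wt)).sum

theorem W_append (wt : T → ℕ) (X Y : List (Sy (AS N1 σ) (AS N2 σ) T)) :
    W wt (X ++ Y) = W wt X + W wt Y := by
  simp [W]

theorem lift1 {V : List (Sy (AS N1 σ) (AS N2 σ) T)} {v : List (N1 ⊕ T)}
    (h : V.map fg = v.map e1) : ∃ x : List (AS N1 σ ⊕ T), V = x.map e1 ∧ x.map fs = v := by
  induction v generalizing V with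
  | nil => exact ⟨[], by simpa using h, rfl⟩
  | cons s v ih =>
    cases V with
    | nil => simp at h
    | cons r V =>
      rw [map_cons, map_cons, cons.injEq] at h
      obtain ⟨x, rfl, rfl⟩ := ih h.2
      rcases s with A | y <;> rcases r with p | p | z
      · simp only [fg, e1, Sy.a.injEq] at h
        exact ⟨.inl p :: x, rfl, by simp [fs, h.1]⟩
      · simp [fg, e1] at h
      · simp [fg, e1] at h
      · simp [fg, e1] at h
      · simp [fg, e1] at h
      · simp only [fg, e1, Sy.t.injEq] at h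
        exact ⟨.inr z :: x, rfl, by simp [fs, h.1]⟩

theorem lift2 {V : List (Sy (AS N1 σ) (AS N2 σ) T)} {v : List (N2 ⊕ T)}
    (h : V.map fg = v.map e2) : ∃ x : List (AS N2 σ ⊕ T), V = x.map e2 ∧ x.map fs = v := by
  induction v generalizing V with
  | nil => exact ⟨[], by simpa using h, rfl⟩
  | cons s v ih =>
    cases V with
    | nil => simp at h
    | cons r V =>
      rw [map_cons, map_cons, cons.injEq] at h
      obtain ⟨x, rfl, rfl⟩ := ih h.2
      rcases s with A | y <;> rcases r with p | p | z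
      · simp [fg, e2] at h
      · simp only [fg, e2, Sy.b.injEq] at h
        exact ⟨.inl p :: x, rfl, by simp [fs, h.1]⟩
      · simp [fg, e2] at h
      · simp [fg, e2] at h
      · simp [fg, e2] at h
      · simp only [fg, e2, Sy.t.injEq] at h
        exact ⟨.inr z :: x, rfl, by simp [fs, h.1]⟩

theorem fg_e1 (x : List (AS N1 σ ⊕ T)) :
    (x.map (e1 (N2 := AS N2 σ))).map fg = (x.map fs).map e1 := by
  rw [map_map, map_map]
  congr 1
  funext s
  rcases s with p | y <;> rfl

theorem fg_e2 (x : List (AS N2 σ ⊕ T)) :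
    (x.map (e2 (N1 := AS N1 σ))).map fg = (x.map fs).map e2 := by
  rw [map_map, map_map]
  congr 1
  funext s
  rcases s with p | y <;> rfl

theorem mem_of_mark1 {x : List (AS N1 σ ⊕ T)} {y : List (AS N2 σ ⊕ T)} {p : AS N1 σ}
    (h : 1 ≤ mark (word (x, y)) (.inl p)) : Sum.inl p ∈ x := by
  classical
  unfold mark word at h
  rw [Nat.succ_le_iff, countP_pos_iff] at h
  obtain ⟨s, hs, hs'⟩ := h
  simp only [decide_eq_true_eq] at hs'
  subst hs'
  rw [mem_append] at hs
  rcases hs with hs | hs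
  · rw [mem_map] at hs
    obtain ⟨r, hr, hr'⟩ := hs
    rcases r with r | r <;> simp [e1] at hr'
    rwa [← hr']
  · rw [mem_map] at hs
    obtain ⟨r, hr, hr'⟩ := hs
    rcases r with r | r <;> simp [e2] at hr'

theorem mem_of_mark2 {x : List (AS N1 σ ⊕ T)} {y : List (AS N2 σ ⊕ T)} {p : AS N2 σ}
    (h : 1 ≤ mark (word (x, y)) (.inr p)) : Sum.inl p ∈ y := by
  classical
  unfold mark word at h
  rw [Nat.succ_le_iff, countP_pos_iff] at h
  obtain ⟨s, hs, hs'⟩ := h
  simp only [decide_eq_true_eq] at hs'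
  subst hs'
  rw [mem_append] at hs
  rcases hs with hs | hs
  · rw [mem_map] at hs
    obtain ⟨r, hr, hr'⟩ := hs
    rcases r with r | r <;> simp [e1] at hr'
  · rw [mem_map] at hs
    obtain ⟨r, hr, hr'⟩ := hs
    rcases r with r | r <;> simp [e2] at hr'
    rwa [← hr']

theorem term_of_mark {N : Type} (e : AS N σ ⊕ T → Sy (AS N1 σ) (AS N2 σ) T)
    (he : ∀ p, (∃ r, e (.inl p) = .a r) ∨ ∃ r, e (.inl p) = .b r)
    {x : List (AS N σ ⊕ T)} (h : mark (x.map e) = 0) : ∃ w : List T, x = w.map Sum.inr := by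
  induction x with
  | nil => exact ⟨[], rfl⟩
  | cons s x ih =>
    have h1 : mark ((s :: x).map e) = mark [e s] + mark (x.map e) := by
      rw [← mark_append]; rfl
    rw [h1] at h
    have h2 : mark (x.map e) = 0 := by
      funext p
      have := congrFun h p
      simp only [Pi.add_apply, Pi.zero_apply] at this ⊢
      omega
    have h3 : mark [e s] = 0 := by
      funext p
      have := congrFun h p
      simp only [Pi.add_apply, Pi.zero_apply] at this ⊢
      omega
    obtain ⟨w, rfl⟩ := ih h2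
    rcases s with p | y
    · exfalso
      rcases he p with ⟨r, hr⟩ | ⟨r, hr⟩
      · have := congrFun h3 (.inl r)
        rw [hr] at this
        simp [mark] at this
      · have := congrFun h3 (.inr r)
        rw [hr] at this
        simp [mark] at this
    · exact ⟨y :: w, rfl⟩

end

/-! ### The Petri net -/

section

variable (G : EG T) {σ : Type} (δ : σ → T → σ) (wt : T → ℕ)

/-- annotated rules -/
def ATr (σ : Type) : Type :=
  {τ : (G.N1 × G.N2) × List (AS G.N1 σ ⊕ T) × List (AS G.N2 σ ⊕ T) //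
    (τ.1, τ.2.1.map fs, τ.2.2.map fs) ∈ G.rules}

theorem finite_lift {N : Type} [Finite N] [Finite T] [Finite σ] (v : List (N ⊕ T)) :
    {x : List (AS N σ ⊕ T) | x.map fs = v}.Finite := by
  refine (List.finite_length_eq (AS N σ ⊕ T) v.length).subset ?_
  rintro x rfl
  simp

instance [Finite T] [Finite σ] : Finite (ATr G σ) := by
  have := G.fin1
  have := G.fin2
  have h : {τ : (G.N1 × G.N2) × List (AS G.N1 σ ⊕ T) × List (AS G.N2 σ ⊕ T) |
      (τ.1, τ.2.1.map fs, τ.2.2.map fs) ∈ G.rules}.Finite := by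
    have h1 : {τ : (G.N1 × G.N2) × List (AS G.N1 σ ⊕ T) × List (AS G.N2 σ ⊕ T) |
      (τ.1, τ.2.1.map fs, τ.2.2.map fs) ∈ G.rules} ⊆
      ⋃ r ∈ G.rules, {r.1} ×ˢ ({x | x.map fs = r.2.1} ×ˢ {x | x.map fs = r.2.2}) := by
      intro τ hτ
      rw [Set.mem_iUnion₂]
      exact ⟨_, hτ, rfl, rfl, rfl⟩
    refine (Set.Finite.biUnion G.finR ?_).subset h1
    intro r _
    exact (Set.finite_singleton _).prod ((finite_lift _).prod (finite_lift _))
  exact h.to_subtype

noncomputable def net : Net (AS G.N1 σ ⊕ AS G.N2 σ) (ATr G σ) where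
  pre τ := mark [.a (τ.1.1.1, val δ (word (N2 := AS G.N2 σ) (τ.1.2.1, []))),
    Sy.b (T := T) (τ.1.1.2, val δ (word (N1 := AS G.N1 σ) ([], τ.1.2.2)))]
  post τ := mark (word τ.1.2)
  out τ := W wt (word τ.1.2)

theorem val_term (w : List T) :
    val (N1 := G.N1) (N2 := G.N2) δ (w.map Sy.t) = fun q => w.foldl δ q := by
  funext q
  simp only [val, foldl_map]
  rfl

theorem W_term (w : List T) :
    W (N1 := G.N1) (N2 := G.N2) (σ := σ) wt (w.map Sy.t) = (w.map wt).sum := by
  simp only [W, map_map]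
  rfl

/-- from derivations to runs -/
theorem claimA {x : List (Sy G.N1 G.N2 T)} {w : List T} {lm : Bool}
    (h : ReflTransGen (G.Step lm) x (w.map Sy.t)) :
    ∃ (X : List (Sy (AS G.N1 σ) (AS G.N2 σ) T)) (l : List _), X.map fg = x ∧
      val δ X = (fun q => w.foldl δ q) ∧ (net G δ wt).Run (mark X) l 0 ∧
      W wt X + (net G δ wt).O l = (w.map wt).sum := by
  induction h using ReflTransGen.head_induction_on with
  | refl =>
    refine ⟨w.map Sy.t, [], ?_, val_term G δ w, ?_, ?_⟩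
    · rw [map_map]; rfl
    · have : mark (N1 := G.N1) (N2 := G.N2) (σ := σ) (w.map Sy.t) = 0 := by
        funext p
        cases p <;> simp [mark]
      rw [this]
      exact .nil _
    · rw [W_term]
      simp [Net.O]
  | head h1 _ ih =>
    obtain ⟨A1, A2, v1, v2, u1, w1, u2, w2, hr, rfl, rfl, _⟩ := h1
    obtain ⟨Y, l, hY, hval, hrun, hW⟩ := ih
    unfold word at hY
    simp only [map_append] at hY
    obtain ⟨Y1, Y2, rfl, hY1, hY2⟩ := List.map_eq_append_iff.1 hY
    obtain ⟨Y11, W1, rfl, hY11, hW1⟩ := List.map_eq_append_iff.1 hY1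
    obtain ⟨U1, V1, rfl, hU1, hV1⟩ := List.map_eq_append_iff.1 hY11
    obtain ⟨Y21, W2, rfl, hY21, hW2⟩ := List.map_eq_append_iff.1 hY2
    obtain ⟨U2, V2, rfl, hU2, hV2⟩ := List.map_eq_append_iff.1 hY21
    obtain ⟨a1, rfl, rfl⟩ := lift1 hV1
    obtain ⟨a2, rfl, rfl⟩ := lift2 hV2
    let τ : ATr G σ := ⟨((A1, A2), a1, a2), hr⟩
    set f1 := val (N1 := G.N1) (N2 := G.N2) δ (word (a1, [])) with hf1
    set f2 := val (N1 := G.N1) (N2 := G.N2) δ (word ([], a2)) with hf2
    have hf1' : f1 = val (N1 := G.N1) (N2 := G.N2) δ (a1.map e1) := by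
      rw [hf1]; simp [word]
    have hf2' : f2 = val (N1 := G.N1) (N2 := G.N2) δ (a2.map e2) := by
      rw [hf2]; simp [word]
    set X : List (Sy (AS G.N1 σ) (AS G.N2 σ) T) :=
      U1 ++ [.a (A1, f1)] ++ W1 ++ (U2 ++ [.b (A2, f2)] ++ W2) with hX
    have hpre : (net G δ wt).pre τ = mark ([.a (A1, f1)] : List (Sy (AS G.N1 σ) (AS G.N2 σ) T))
        + mark ([.b (A2, f2)] : List (Sy (AS G.N1 σ) (AS G.N2 σ) T)) := by
      rw [← mark_append]
      rfl
    have hpost : (net G δ wt).post τ = mark (a1.map e1 : List (Sy (AS G.N1 σ) (AS G.N2 σ) T))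
        + mark (a2.map e2 : List (Sy (AS G.N1 σ) (AS G.N2 σ) T)) := by
      rw [← mark_append]
      rfl
    refine ⟨X, (mark X, τ) :: l, ?_, ?_, ?_, ?_⟩
    · rw [hX]
      simp only [map_append, hU1, hW1, hU2, hW2, word, map_cons, map_nil, append_assoc,
        singleton_append, cons_append, nil_append]
      rfl
    · rw [← hval, hX]
      simp only [val_append]
      have h1 : val δ ([.a (A1, f1)] : List (Sy (AS G.N1 σ) (AS G.N2 σ) T)) = f1 := rfl
      have h2 : val δ ([.b (A2, f2)] : List (Sy (AS G.N1 σ) (AS G.N2 σ) T)) = f2 := rfl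
      rw [h1, h2, hf1', hf2']
    · refine .cons ?_ ?_
      · rw [hpre]
        intro p
        rw [hX]
        simp only [mark_append, Pi.add_apply]
        omega
      · convert hrun using 1
        rw [hpre, hpost]
        funext p
        rw [hX]
        simp only [mark_append, Pi.add_apply, Pi.sub_apply]
        omega
    · rw [← hW, hX]
      have h1 : W wt ([.a (A1, f1)] : List (Sy (AS G.N1 σ) (AS G.N2 σ) T)) = 0 := rfl
      have h2 : W wt ([.b (A2, f2)] : List (Sy (AS G.N1 σ) (AS G.N2 σ) T)) = 0 := rfl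
      have h3 : (net G δ wt).out τ = W wt (a1.map e1 : List (Sy (AS G.N1 σ) (AS G.N2 σ) T))
          + W wt (a2.map e2 : List (Sy (AS G.N1 σ) (AS G.N2 σ) T)) := by
        rw [← W_append]
        rfl
      simp only [W_append, h1, h2, Net.O, map_cons, sum_cons, h3]
      omega

/-- from runs to derivations -/
theorem claimB {m c : AS G.N1 σ ⊕ AS G.N2 σ → ℕ} {l : List _} (h : (net G δ wt).Run m l c) :
    c = 0 → ∀ x : List (AS G.N1 σ ⊕ T) × List (AS G.N2 σ ⊕ T), mark (word x) = m →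
    ∃ w : List T, ReflTransGen (G.Step false) (word (x.1.map fs, x.2.map fs)) (w.map Sy.t) ∧
      val δ (word x) = (fun q => w.foldl δ q) ∧
      W wt (word x) + (net G δ wt).O l = (w.map wt).sum := by
  induction h with
  | nil m =>
    rintro rfl ⟨x1, x2⟩ hx
    unfold word at hx
    rw [mark_append] at hx
    have h1 : mark (x1.map (e1 (N2 := AS G.N2 σ))) = 0 := by
      funext p
      have := congrFun hx p
      simp only [Pi.add_apply, Pi.zero_apply] at this ⊢
      omega
    have h2 : mark (x2.map (e2 (N1 := AS G.N1 σ))) = 0 := by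
      funext p
      have := congrFun hx p
      simp only [Pi.add_apply, Pi.zero_apply] at this ⊢
      omega
    obtain ⟨w1, rfl⟩ := term_of_mark e1 (fun p => Or.inl ⟨p, rfl⟩) h1
    obtain ⟨w2, rfl⟩ := term_of_mark e2 (fun p => Or.inr ⟨p, rfl⟩) h2
    have h3 : word (w1.map (Sum.inr (α := AS G.N1 σ)), w2.map (Sum.inr (α := AS G.N2 σ))) =
        (w1 ++ w2).map Sy.t := by
      unfold word
      rw [map_append, map_map, map_map]
      rfl
    refine ⟨w1 ++ w2, ?_, ?_, ?_⟩
    · have : word ((w1.map (Sum.inr (α := AS G.N1 σ))).map fs,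
          (w2.map (Sum.inr (α := AS G.N2 σ))).map fs) =
          ((w1 ++ w2).map Sy.t : List (Sy G.N1 G.N2 T)) := by
        unfold word
        simp only [map_append, map_map]
        rfl
      rw [this]
    · rw [h3, val_term]
    · rw [h3, W_term]
      simp [Net.O]
  | @cons m c τ l hp _ ih =>
    rintro hc ⟨x1, x2⟩ rfl
    obtain ⟨⟨⟨A1, A2⟩, a1, a2⟩, hr⟩ := τ
    set f1 := val (N1 := G.N1) (N2 := G.N2) δ (word (a1, [])) with hf1
    set f2 := val (N1 := G.N1) (N2 := G.N2) δ (word ([], a2)) with hf2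
    have hf1' : f1 = val (N1 := G.N1) (N2 := G.N2) δ (a1.map e1) := by
      rw [hf1]; simp [word]
    have hf2' : f2 = val (N1 := G.N1) (N2 := G.N2) δ (a2.map e2) := by
      rw [hf2]; simp [word]
    have hpre : (net G δ wt).pre ⟨⟨⟨A1, A2⟩, a1, a2⟩, hr⟩ =
        mark ([.a (A1, f1)] : List (Sy (AS G.N1 σ) (AS G.N2 σ) T))
        + mark ([.b (A2, f2)] : List (Sy (AS G.N1 σ) (AS G.N2 σ) T)) := by
      rw [← mark_append]
      rfl
    have hpost : (net G δ wt).post ⟨⟨⟨A1, A2⟩, a1, a2⟩, hr⟩ =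
        mark (a1.map e1 : List (Sy (AS G.N1 σ) (AS G.N2 σ) T))
        + mark (a2.map e2 : List (Sy (AS G.N1 σ) (AS G.N2 σ) T)) := by
      rw [← mark_append]
      rfl
    have hp' : (net G δ wt).pre ⟨⟨⟨A1, A2⟩, a1, a2⟩, hr⟩ ≤ mark (word (x1, x2)) := hp
    rw [hpre] at hp'
    have m1 : Sum.inl (A1, f1) ∈ x1 := by
      apply mem_of_mark1 (y := x2)
      refine le_trans ?_ (hp' (.inl (A1, f1)))
      simp [mark]
    have m2 : Sum.inl (A2, f2) ∈ x2 := by
      apply mem_of_mark2 (x := x1)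
      refine le_trans ?_ (hp' (.inr (A2, f2)))
      simp [mark]
    obtain ⟨u1, w1, rfl⟩ := List.append_of_mem m1
    obtain ⟨u2, w2, rfl⟩ := List.append_of_mem m2
    obtain ⟨w, hw1, hw2, hw3⟩ := ih hc (u1 ++ a1 ++ w1, u2 ++ a2 ++ w2) (by
      show _ = mark _ - _ + _
      rw [hpre, hpost]
      funext p
      have e1' : (e1 (Sum.inl (A1, f1)) : Sy (AS G.N1 σ) (AS G.N2 σ) T) = .a (A1, f1) := rfl
      have e2' : (e2 (Sum.inl (A2, f2)) : Sy (AS G.N1 σ) (AS G.N2 σ) T) = .b (A2, f2) := rfl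
      have c1 : ((u1 ++ Sum.inl (A1, f1) :: w1).map e1 : List (Sy (AS G.N1 σ) (AS G.N2 σ) T)) =
        u1.map e1 ++ ([.a (A1, f1)] ++ w1.map e1) := by simp [e1']
      have c2 : ((u2 ++ Sum.inl (A2, f2) :: w2).map e2 : List (Sy (AS G.N1 σ) (AS G.N2 σ) T)) =
        u2.map e2 ++ ([.b (A2, f2)] ++ w2.map e2) := by simp [e2']
      simp only [word, c1, c2, map_append, mark_append, Pi.add_apply, Pi.sub_apply]
      omega)
    have c1 : word (u1 ++ Sum.inl (A1, f1) :: w1, u2 ++ Sum.inl (A2, f2) :: w2) =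
        u1.map e1 ++ ([.a (A1, f1)] ++ w1.map e1) ++
          (u2.map e2 ++ ([.b (A2, f2)] ++ w2.map e2)) := by
      simp only [word, map_append, map_cons, singleton_append]; rfl
    have c2 : (word (u1 ++ a1 ++ w1, u2 ++ a2 ++ w2) : List (Sy (AS G.N1 σ) (AS G.N2 σ) T)) =
        u1.map e1 ++ (a1.map e1 ++ w1.map e1) ++ (u2.map e2 ++ (a2.map e2 ++ w2.map e2)) := by
      simp only [word, map_append, append_assoc]
    refine ⟨w, ?_, ?_, ?_⟩
    · refine ReflTransGen.head ⟨A1, A2, a1.map fs, a2.map fs, u1.map fs, w1.map fs, u2.map fs,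
        w2.map fs, hr, ?_, rfl, by simp⟩ (by simpa only [map_append] using hw1)
      simp only [map_append, map_cons]
      rfl
    · rw [← hw2, c1, c2]
      have h1 : val δ ([.a (A1, f1)] : List (Sy (AS G.N1 σ) (AS G.N2 σ) T)) = f1 := rfl
      have h2 : val δ ([.b (A2, f2)] : List (Sy (AS G.N1 σ) (AS G.N2 σ) T)) = f2 := rfl
      simp only [val_append, h1, h2]
      rw [hf1', hf2']
    · rw [← hw3, c1, c2]
      have h1 : W wt ([.a (A1, f1)] : List (Sy (AS G.N1 σ) (AS G.N2 σ) T)) = 0 := rfl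
      have h2 : W wt ([.b (A2, f2)] : List (Sy (AS G.N1 σ) (AS G.N2 σ) T)) = 0 := rfl
      have h3 : (net G δ wt).out ⟨⟨⟨A1, A2⟩, a1, a2⟩, hr⟩ =
          W wt (a1.map e1 : List (Sy (AS G.N1 σ) (AS G.N2 σ) T))
          + W wt (a2.map e2 : List (Sy (AS G.N1 σ) (AS G.N2 σ) T)) := by
        rw [← W_append]
        rfl
      simp only [W_append, h1, h2, Net.O, map_cons, sum_cons, h3]
      omega

/-- **Progressions under mode 0.** -/
theorem mode0 [Finite T] [Finite σ] (q₀ : σ) (F : Set σ)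
    (hinf : {n : ℕ | ∃ w ∈ G.lang false, w.foldl δ q₀ ∈ F ∧ (w.map wt).sum = n}.Infinite) :
    ∃ u v : ℕ, 0 < v ∧ ∀ k : ℕ,
      u + k * v ∈ {n : ℕ | ∃ w ∈ G.lang false, w.foldl δ q₀ ∈ F ∧ (w.map wt).sum = n} := by
  have := G.fin1
  have := G.fin2
  set S := {n : ℕ | ∃ w ∈ G.lang false, w.foldl δ q₀ ∈ F ∧ (w.map wt).sum = n} with hS
  let St : Set (List (AS G.N1 σ ⊕ T) × List (AS G.N2 σ ⊕ T)) :=
    {x | (x.1.map fs, x.2.map fs) ∈ G.start ∧ val δ (word x) q₀ ∈ F}
  have hStfin : St.Finite := by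
    have h1 : St ⊆ ⋃ r ∈ G.start, ({x | x.map fs = r.1} ×ˢ {x | x.map fs = r.2}) := by
      intro x hx
      rw [Set.mem_iUnion₂]
      exact ⟨_, hx.1, rfl, rfl⟩
    refine (Set.Finite.biUnion G.finS ?_).subset h1
    intro r _
    exact (finite_lift _).prod (finite_lift _)
  let Sx : List (AS G.N1 σ ⊕ T) × List (AS G.N2 σ ⊕ T) → Set ℕ := fun x =>
    {n | ∃ l, (net G δ wt).Run (mark (word x)) l 0 ∧ (net G δ wt).O l = n}
  have hsub : S ⊆ ((fun w : List T => (w.map wt).sum) '' G.term) ∪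
      ⋃ x ∈ St, (fun n => W wt (word x) + n) '' Sx x := by
    rintro n ⟨w, hw, hF, rfl⟩
    rcases hw with hw | ⟨v, hv, hd⟩
    · exact Or.inl ⟨w, hw, rfl⟩
    · right
      obtain ⟨X, l, h1, h2, h3, h4⟩ := claimA G δ wt hd
      unfold word at h1
      obtain ⟨X1, X2, rfl, hX1, hX2⟩ := List.map_eq_append_iff.1 h1
      obtain ⟨a1, rfl, ha1⟩ := lift1 hX1
      obtain ⟨a2, rfl, ha2⟩ := lift2 hX2
      rw [Set.mem_iUnion₂]
      refine ⟨(a1, a2), ⟨?_, ?_⟩, (net G δ wt).O l, ⟨l, h3, rfl⟩, h4⟩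
      · rw [ha1, ha2]; exact hv
      · show val δ (a1.map e1 ++ a2.map e2) q₀ ∈ F
        rw [h2]; exact hF
  have hex : ∃ x ∈ St, (Sx x).Infinite := by
    by_contra hcon
    push Not at hcon
    apply hinf
    refine ((G.finT.image _).union (Set.Finite.biUnion hStfin ?_)).subset hsub
    intro x hx
    exact (hcon x hx).image _
  obtain ⟨x, hx, hxinf⟩ := hex
  obtain ⟨u, v, hv, hk⟩ := (net G δ wt).progression _ _ hxinf
  refine ⟨W wt (word x) + u, v, hv, fun k => ?_⟩
  obtain ⟨l, hl, hl'⟩ := hk k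
  obtain ⟨w, h1, h2, h3⟩ := claimB G δ wt hl rfl x rfl
  refine ⟨w, Or.inr ⟨_, hx.1, h1⟩, ?_, ?_⟩
  · have := hx.2
    rw [h2] at this
    exact this
  · rw [← h3, hl']
    ring

end

end Pool.Agent.Q316.EM
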