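import Pool.Agent.Q316.EM.Copy
import Pool.Agent.Q316.EM.Gram

/-!
# Degree two, and matrix grammars

The grammars of `Gram.lean` are the even matrix grammars of degree 2, and every language of a matrix
grammar is generated by an even matrix grammar of degree 2 under mode 0.
-/

set_option autoImplicit false

namespace Pool.Agent.Q316.EM.Deg

open List
open Relation (ReflTransGen)

variable {T : Type}

section

variable {N1 N2 : Type}

def ph : Sy N1 N2 T → (N1 ⊕ N2) ⊕ T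
  | .a A => .inl (.inl A)
  | .b B => .inl (.inr B)
  | .t x => .inr x

def f1 : N1 ⊕ T → (N1 ⊕ N2) ⊕ T
  | .inl A => .inl (.inl A)
  | .inr x => .inr x

def f2 : N2 ⊕ T → (N1 ⊕ N2) ⊕ T
  | .inl B => .inl (.inr B)
  | .inr x => .inr x

def cp : N1 ⊕ N2 → Fin 2 := Sum.elim (fun _ => 0) (fun _ => 1)

def pr (v : List (N1 ⊕ T) × List (N2 ⊕ T)) : Fin 2 → List ((N1 ⊕ N2) ⊕ T) :=
  ![v.1.map f1, v.2.map f2]

theorem cat_two {α : Type} (v : Fin 2 → List α) : cat v = v 0 ++ v 1 := by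
  rw [cat_succ, cat_succ, cat_zero, append_nil]
  rfl

theorem ph_inj : Function.Injective (ph : Sy N1 N2 T → (N1 ⊕ N2) ⊕ T) := by
  intro x y h
  cases x <;> cases y <;> simp [ph] at h <;> rw [h]

theorem ph_e1 (x : List (N1 ⊕ T)) : (x.map (Pool.Agent.Q316.EM.e1 (N2 := N2))).map ph = x.map f1 := by
  rw [map_map]
  congr 1
  funext s
  rcases s with A | y <;> rfl

theorem ph_e2 (x : List (N2 ⊕ T)) : (x.map (Pool.Agent.Q316.EM.e2 (N1 := N1))).map ph = x.map f2 := by
  rw [map_map]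
  congr 1
  funext s
  rcases s with A | y <;> rfl

theorem ph_word (v : List (N1 ⊕ T) × List (N2 ⊕ T)) :
    (word v).map ph = cat (pr v) := by
  rw [cat_two, word, map_append, ph_e1, ph_e2]
  rfl

/-- the image of a word -/
def phl (X : List (Sy N1 N2 T)) : List ((N1 ⊕ N2) ⊕ T) := X.map ph

theorem inComp_f1 {x : List ((N1 ⊕ N2) ⊕ T)} :
    InComp (cp (N1 := N1) (N2 := N2)) 0 x ↔ ∃ y : List (N1 ⊕ T), x = y.map f1 := by
  constructor
  · intro h
    induction x with
    | nil => exact ⟨[], rfl⟩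
    | cons s x ih =>
      obtain ⟨y, rfl⟩ := ih fun A hA => h A (mem_cons_of_mem _ hA)
      rcases s with (A | B) | z
      · exact ⟨.inl A :: y, rfl⟩
      · have := h (.inr B) mem_cons_self
        simp [cp] at this
      · exact ⟨.inr z :: y, rfl⟩
  · rintro ⟨y, rfl⟩ A hA
    rw [mem_map] at hA
    obtain ⟨s, _, hs⟩ := hA
    rcases s with B | z
    · simp only [f1, Sum.inl.injEq] at hs
      rw [← hs]; rfl
    · simp [f1] at hs

theorem inComp_f2 {x : List ((N1 ⊕ N2) ⊕ T)} :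
    InComp (cp (N1 := N1) (N2 := N2)) 1 x ↔ ∃ y : List (N2 ⊕ T), x = y.map f2 := by
  constructor
  · intro h
    induction x with
    | nil => exact ⟨[], rfl⟩
    | cons s x ih =>
      obtain ⟨y, rfl⟩ := ih fun A hA => h A (mem_cons_of_mem _ hA)
      rcases s with (A | B) | z
      · have := h (.inl A) mem_cons_self
        simp [cp] at this
      · exact ⟨.inl B :: y, rfl⟩
      · exact ⟨.inr z :: y, rfl⟩
  · rintro ⟨y, rfl⟩ A hA
    rw [mem_map] at hA
    obtain ⟨s, _, hs⟩ := hA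
    rcases s with B | z
    · simp only [f2, Sum.inl.injEq] at hs
      rw [← hs]; rfl
    · simp [f2] at hs

theorem inComp_pr (v : List (N1 ⊕ T) × List (N2 ⊕ T)) (i : Fin 2) :
    InComp (cp (N1 := N1) (N2 := N2)) i (pr v i) := by
  refine Fin.cases ?_ (fun j => ?_) i
  · exact inComp_f1.2 ⟨_, rfl⟩
  · have : j = 0 := Subsingleton.elim _ _
    subst this
    exact inComp_f2.2 ⟨_, rfl⟩

theorem ph_term {X : List (Sy N1 N2 T)} {w : List T} :
    phl X = w.map Sum.inr ↔ X = w.map Sy.t := by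
  unfold phl
  have h : (w.map Sum.inr : List ((N1 ⊕ N2) ⊕ T)) = (w.map Sy.t).map ph := by
    rw [map_map]; rfl
  rw [h]
  exact (List.map_injective_iff.2 ph_inj).eq_iff

end

def RB (G : EG T) :
    Set ((Fin 2 → G.N1 ⊕ G.N2) × (Fin 2 → List ((G.N1 ⊕ G.N2) ⊕ T))) :=
  (fun r => (![.inl r.1.1, .inr r.1.2], pr r.2)) '' G.rules

def toEven (G : EG T) : EvenGrammar T where
  n := 2
  hn := by norm_num
  N := G.N1 ⊕ G.N2
  fin := by
    have := G.fin1
    have := G.fin2
    infer_instance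
  comp := cp
  term := G.term
  start := pr '' G.start
  rules := RB G
  finT := G.finT
  finS := G.finS.image _
  finR := G.finR.image _
  hstart := by
    rintro _ ⟨v, hv, rfl⟩ i
    refine ⟨inComp_pr v i, ?_⟩
    obtain ⟨⟨A, hA⟩, B, hB⟩ := G.hstart v hv
    refine Fin.cases ?_ (fun j => ?_) i
    · exact ⟨.inl A, mem_map.2 ⟨_, hA, rfl⟩⟩
    · have : j = 0 := Subsingleton.elim _ _
      subst this
      exact ⟨.inr B, mem_map.2 ⟨_, hB, rfl⟩⟩
  hrules := by
    rintro _ ⟨r, hr, rfl⟩ i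
    refine ⟨?_, inComp_pr r.2 i⟩
    refine Fin.cases ?_ (fun j => ?_) i
    · rfl
    · have : j = 0 := Subsingleton.elim _ _
      subst this
      rfl

theorem te_of (G : EG T) {lm : Bool}
    {r : (Fin 2 → G.N1 ⊕ G.N2) × (Fin 2 → List ((G.N1 ⊕ G.N2) ⊕ T))} (hr : r ∈ RB G)
    (u w : Fin 2 → List ((G.N1 ⊕ G.N2) ⊕ T)) (hc : ∀ i, InComp cp i (u i) ∧ InComp cp i (w i))
    {X Y : List ((G.N1 ⊕ G.N2) ⊕ T)}
    (hX : X = (u 0 ++ Sum.inl (r.1 0) :: w 0) ++ (u 1 ++ Sum.inl (r.1 1) :: w 1))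
    (hY : Y = (u 0 ++ r.2 0 ++ w 0) ++ (u 1 ++ r.2 1 ++ w 1))
    (h : lm = true → ∀ i, Sum.inl (r.1 i) ∉ u i) : (toEven G).Step lm X Y :=
  ⟨r, hr, u, w, hc, hX.trans (cat_two (fun i => u i ++ Sum.inl (r.1 i) :: w i)).symm,
    hY.trans (cat_two (fun i => u i ++ r.2 i ++ w i)).symm, h⟩

theorem te_cases (G : EG T) {lm : Bool} {X Y : List ((G.N1 ⊕ G.N2) ⊕ T)}
    (h : (toEven G).Step lm X Y) :
    ∃ r ∈ RB G, ∃ u w : Fin 2 → List ((G.N1 ⊕ G.N2) ⊕ T),
      (∀ i, InComp cp i (u i) ∧ InComp cp i (w i)) ∧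
      X = (u 0 ++ Sum.inl (r.1 0) :: w 0) ++ (u 1 ++ Sum.inl (r.1 1) :: w 1) ∧
      Y = (u 0 ++ r.2 0 ++ w 0) ++ (u 1 ++ r.2 1 ++ w 1) ∧
      (lm = true → ∀ i, Sum.inl (r.1 i) ∉ u i) := by
  obtain ⟨r, hr, u, w, hc, hX, hY, hlm⟩ := h
  exact ⟨r, hr, u, w, hc, hX.trans (cat_two _), hY.trans (cat_two _), hlm⟩

theorem toEven_forw (G : EG T) {lm : Bool} {X Y : List (Sy G.N1 G.N2 T)} (h : G.Step lm X Y) :
    (toEven G).Step lm (phl X) (phl Y) := by
  obtain ⟨A1, A2, v1, v2, u1, w1, u2, w2, hr, rfl, rfl, hlm⟩ := h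
  refine te_of G (r := (![.inl A1, .inr A2], pr (v1, v2))) ⟨((A1, A2), v1, v2), hr, rfl⟩
    (pr (u1, u2)) (pr (w1, w2)) (fun i => ⟨inComp_pr _ i, inComp_pr _ i⟩) ?_ ?_ ?_
  · rw [phl, ph_word, cat_two]
    simp [pr, f1, f2]
  · rw [phl, ph_word, cat_two]
    simp [pr]
  · intro hl
    obtain ⟨g1, g2⟩ := hlm hl
    intro i
    refine Fin.cases ?_ (fun j => ?_) i
    · intro hmem
      obtain ⟨s, hs, hs'⟩ := mem_map.1 hmem
      rcases s with B | z
      · simp only [f1, Matrix.cons_val_zero, Sum.inl.injEq] at hs'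
        exact g1 (hs' ▸ hs)
      · simp [f1] at hs'
    · have : j = 0 := Subsingleton.elim _ _
      subst this
      intro hmem
      obtain ⟨s, hs, hs'⟩ := mem_map.1 hmem
      rcases s with B | z
      · simp [f2] at hs'
        exact g2 (hs' ▸ hs)
      · simp [f2] at hs'

theorem toEven_back (G : EG T) {lm : Bool} {X : List (Sy G.N1 G.N2 T)}
    {Y' : List ((G.N1 ⊕ G.N2) ⊕ T)} (h : (toEven G).Step lm (phl X) Y') :
    ∃ Y, Y' = phl Y ∧ G.Step lm X Y := by
  obtain ⟨_, ⟨⟨⟨A1, A2⟩, v1, v2⟩, hr, rfl⟩, u, w, hc, hX, hY, hlm⟩ := te_cases G h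
  unfold phl at hX
  obtain ⟨u1, hu1⟩ := inComp_f1.1 (hc 0).1
  obtain ⟨w1, hw1⟩ := inComp_f1.1 (hc 0).2
  obtain ⟨u2, hu2⟩ := inComp_f2.1 (hc 1).1
  obtain ⟨w2, hw2⟩ := inComp_f2.1 (hc 1).2
  have hX' : X.map ph = (word (u1 ++ Sum.inl A1 :: w1, u2 ++ Sum.inl A2 :: w2)).map ph := by
    rw [ph_word, cat_two]
    refine hX.trans ?_
    rw [hu1, hw1, hu2, hw2]
    simp [pr, f1, f2]
  have hX'' := List.map_injective_iff.2 ph_inj hX'
  refine ⟨word (u1 ++ v1 ++ w1, u2 ++ v2 ++ w2), ?_,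
    ⟨A1, A2, v1, v2, u1, w1, u2, w2, hr, hX'', rfl, ?_⟩⟩
  · rw [phl, ph_word, cat_two, hY, hu1, hw1, hu2, hw2]
    simp [pr]
  · intro hl
    have h0 := hlm hl 0
    have h1 := hlm hl 1
    constructor
    · intro hmem
      apply h0
      rw [hu1]
      exact mem_map.2 ⟨_, hmem, rfl⟩
    · intro hmem
      apply h1
      rw [hu2]
      exact mem_map.2 ⟨_, hmem, rfl⟩

theorem toEven_lang (G : EG T) (lm : Bool) : (toEven G).lang lm = G.lang lm := by
  apply Set.Subset.antisymm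
  · rintro w (hw | ⟨_, ⟨v, hv, rfl⟩, hd⟩)
    · exact Or.inl hw
    · refine Or.inr ⟨v, hv, ?_⟩
      have key : ∀ Z, ReflTransGen ((toEven G).Step lm) (cat (pr v)) Z →
          ∃ Y, Z = phl Y ∧ ReflTransGen (G.Step lm) (word v) Y := by
        intro Z hZ
        induction hZ with
        | refl => exact ⟨_, (ph_word v).symm, ReflTransGen.refl⟩
        | tail _ h ih =>
          obtain ⟨Y, rfl, h2⟩ := ih
          obtain ⟨Y', h3, h4⟩ := toEven_back G h
          exact ⟨Y', h3, h2.tail h4⟩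
      obtain ⟨Y, h1, h2⟩ := key _ hd
      rw [ph_term.1 h1.symm] at h2
      exact h2
  · rintro w (hw | ⟨v, hv, hd⟩)
    · exact Or.inl hw
    · refine Or.inr ⟨_, ⟨v, hv, rfl⟩, ?_⟩
      have key : ∀ Y, ReflTransGen (G.Step lm) (word v) Y →
          ReflTransGen ((toEven G).Step lm) (phl (word v)) (phl Y) := by
        intro Y hY
        induction hY with
        | refl => exact ReflTransGen.refl
        | tail _ h ih => exact ih.tail (toEven_forw G h)
      have h1 := key _ hd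
      have h2 : phl (w.map Sy.t : List (Sy G.N1 G.N2 T)) = w.map Sum.inr := ph_term.2 rfl
      have h3 : phl (word v) = cat (pr v) := ph_word v
      rw [h3, h2] at h1
      exact h1

/-! ### Matrix grammars -/

/-- A matrix grammar without appearance checking; erasing rules are allowed. -/
structure MatrixGrammar (T : Type) where
  N : Type
  fin : Finite N
  S : N
  M : Set (List (N × List (N ⊕ T)))
  finM : M.Finite
  hM : ∀ m ∈ M, m ≠ []

/-- application of the rule `r.1 → r.2` to one occurrence of `r.1` -/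
def App {N : Type} (r : N × List (N ⊕ T)) (X Y : List (N ⊕ T)) : Prop :=
  ∃ u w, X = u ++ Sum.inl r.1 :: w ∧ Y = u ++ r.2 ++ w

/-- application of a sequence of rules -/
def Apps {N : Type} : List (N × List (N ⊕ T)) → List (N ⊕ T) → List (N ⊕ T) → Prop
  | [], X, Y => X = Y
  | r :: m, X, Y => ∃ Z, App r X Z ∧ Apps m Z Y

def MatrixGrammar.Step (G : MatrixGrammar T) (X Y : List (G.N ⊕ T)) : Prop :=
  ∃ m ∈ G.M, Apps m X Y

/-- the generated language -/
def MatrixGrammar.lang (G : MatrixGrammar T) : Set (List T) :=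
  {w | ReflTransGen G.Step [Sum.inl G.S] (w.map Sum.inr)}

/-- the family `M` over the alphabet `T` -/
def MAT (T : Type) : Set (Set (List T)) := {L | ∃ G : MatrixGrammar T, L = G.lang}

section

variable (G : MatrixGrammar T)

/-- the suffixes of the matrices -/
def Ctl : Type := {l : List (G.N × List (G.N ⊕ T)) // l = [] ∨ ∃ m ∈ G.M, l <:+ m}

instance : Finite (Ctl G) := by
  have h : {l : List (G.N × List (G.N ⊕ T)) | l = [] ∨ ∃ m ∈ G.M, l <:+ m}.Finite := by
    have h1 : {l : List (G.N × List (G.N ⊕ T)) | l = [] ∨ ∃ m ∈ G.M, l <:+ m} ⊆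
        {[]} ∪ ⋃ m ∈ G.M, {l | l ∈ m.tails} := by
      rintro l (rfl | ⟨m, hm, hl⟩)
      · exact Or.inl rfl
      · right
        rw [Set.mem_iUnion₂]
        exact ⟨m, hm, (List.mem_tails l m).2 hl⟩
    refine ((Set.finite_singleton _).union (Set.Finite.biUnion G.finM ?_)).subset h1
    intro m _
    exact List.finite_toSet m.tails
  exact h.to_subtype

/-- `d = r :: l'` can be applied in the control state `c` -/
def Allowed (c d : Ctl G) : Prop := c = d ∨ (c.1 = [] ∧ d.1 ∈ G.M)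

def tl (d : Ctl G) : Ctl G := ⟨d.1.tail, by
  rcases d.2 with h | ⟨m, hm, h⟩
  · left; rw [h]; rfl
  · exact Or.inr ⟨m, hm, (List.tail_suffix d.1).trans h⟩⟩

def RM : Set ((G.N × Ctl G) × List (G.N ⊕ T) × List (Ctl G ⊕ T)) :=
  {ρ | ∃ c d : Ctl G, ∃ r : G.N × List (G.N ⊕ T), Allowed G c d ∧ d.1.head? = some r ∧
    ρ.1 = (r.1, c) ∧ ρ.2.1 = r.2 ∧
      (ρ.2.2 = [Sum.inl (tl G d)] ∨ ((tl G d).1 = [] ∧ ρ.2.2 = []))}

theorem finRM : (RM G).Finite := by
  have h : RM G ⊆ ⋃ x ∈ (Set.univ : Set (Ctl G × Ctl G × Bool)),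
      {ρ | ∃ r : G.N × List (G.N ⊕ T), x.2.1.1.head? = some r ∧ ρ = ((r.1, x.1), r.2,
        if x.2.2 then [Sum.inl (tl G x.2.1)] else [])} := by
    rintro ⟨⟨a, b⟩, e, f⟩ ⟨c, d, r, _, h2, h3, h4, h5⟩
    rw [Set.mem_iUnion₂]
    simp only [Prod.mk.injEq] at h3 h4 h5
    obtain ⟨rfl, rfl⟩ := h3
    subst h4
    rcases h5 with rfl | ⟨_, rfl⟩
    · exact ⟨(b, d, true), trivial, r, h2, rfl⟩
    · exact ⟨(b, d, false), trivial, r, h2, rfl⟩
  refine (Set.Finite.biUnion Set.finite_univ ?_).subset h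
  intro x _
  refine Set.Subsingleton.finite ?_
  rintro ρ ⟨r, h1, rfl⟩ ρ' ⟨r', h1', rfl⟩
  rw [h1, Option.some.injEq] at h1'
  rw [h1']

/-- component 1 simulates the matrix grammar, component 2 is the control -/
def toEG : EG T where
  N1 := G.N
  N2 := Ctl G
  fin1 := G.fin
  fin2 := inferInstance
  term := ∅
  start := {([.inl G.S], [.inl ⟨[], Or.inl rfl⟩])}
  rules := RM G
  finT := Set.finite_empty
  finS := Set.finite_singleton _
  finR := finRM G
  hstart := by
    rintro v rfl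
    exact ⟨⟨G.S, by simp⟩, ⟨_, by simp; rfl⟩⟩

abbrev SM : Type := Sy G.N (Ctl G) T

/-- the forms -/
def FF (X : List (G.N ⊕ T)) (c : Option (Ctl G)) : List (SM G) :=
  X.map Pool.Agent.Q316.EM.e1 ++ (c.map Sy.b).toList

theorem app_of (r : G.N × List (G.N ⊕ T)) {X Z : List (G.N ⊕ T)} (h : App r X Z)
    (c d : Ctl G) (hcd : Allowed G c d) (hd : d.1.head? = some r) (o : Option (Ctl G))
    (ho : o = some (tl G d) ∨ ((tl G d).1 = [] ∧ o = none)) :
    (toEG G).Step false (FF G X (some c)) (FF G Z o) := by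
  obtain ⟨u, w, rfl, rfl⟩ := h
  refine ⟨r.1, c, r.2, (o.map Sum.inl).toList, u, w, [], [], ⟨c, d, r, hcd, hd, rfl, rfl, ?_⟩,
    ?_, ?_, by simp⟩
  · rcases ho with rfl | ⟨h, rfl⟩
    · exact Or.inl rfl
    · exact Or.inr ⟨h, rfl⟩
  · rfl
  · cases o <;> rfl

theorem apps_of (l : List (G.N × List (G.N ⊕ T))) : ∀ (X Y : List (G.N ⊕ T)) (c d : Ctl G),
    l ≠ [] → d.1 = l → Allowed G c d → Apps l X Y → ∀ o : Option (Ctl G),
    (o = some ⟨[], Or.inl rfl⟩ ∨ o = none) →
    ReflTransGen ((toEG G).Step false) (FF G X (some c)) (FF G Y o) := by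
  induction l with
  | nil => intro _ _ _ _ h; exact absurd rfl h
  | cons r l ih =>
    rintro X Y c d _ hd hcd ⟨Z, h1, h2⟩ o ho
    have htl : (tl G d).1 = l := by
      show d.1.tail = l
      rw [hd]; rfl
    have hhd : d.1.head? = some r := by rw [hd]; rfl
    by_cases hl : l = []
    · subst hl
      have hZ : Z = Y := h2
      subst hZ
      refine ReflTransGen.single (app_of G r h1 c d hcd hhd o ?_)
      rcases ho with rfl | rfl
      · left
        exact congrArg some (Subtype.ext htl.symm)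
      · exact Or.inr ⟨htl, rfl⟩
    · refine ReflTransGen.head (app_of G r h1 c d hcd hhd (some (tl G d)) (Or.inl rfl)) ?_
      exact ih Z Y (tl G d) (tl G d) hl htl (Or.inl rfl) h2 o ho

theorem mat_sub : G.lang ⊆ (toEG G).lang false := by
  intro w hw
  refine Or.inr ⟨_, rfl, ?_⟩
  have h0 : (word (([.inl G.S], [.inl ⟨[], Or.inl rfl⟩]) : List (G.N ⊕ T) × List (Ctl G ⊕ T))) =
      FF G [.inl G.S] (some ⟨[], Or.inl rfl⟩) := rfl
  rcases ReflTransGen.cases_tail hw with h | ⟨X, hX, m, hm, hX'⟩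
  · exfalso
    cases w with
    | nil => simp at h
    | cons a w => simp at h
  · have key : ∀ X, ReflTransGen G.Step [Sum.inl G.S] X →
        ReflTransGen ((toEG G).Step false) (FF G [.inl G.S] (some ⟨[], Or.inl rfl⟩))
          (FF G X (some ⟨[], Or.inl rfl⟩)) := by
      intro X hX
      induction hX with
      | refl => exact ReflTransGen.refl
      | tail _ h ih =>
        obtain ⟨m, hm, h⟩ := h
        exact ih.trans (apps_of G m _ _ ⟨[], Or.inl rfl⟩ ⟨m, Or.inr ⟨m, hm, suffix_rfl⟩⟩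
          (G.hM m hm) rfl (Or.inr ⟨rfl, hm⟩) h _ (Or.inl rfl))
    have h1 := (key X hX).trans (apps_of G m _ _ ⟨[], Or.inl rfl⟩ ⟨m, Or.inr ⟨m, hm, suffix_rfl⟩⟩
          (G.hM m hm) rfl (Or.inr ⟨rfl, hm⟩) hX' _ (Or.inr rfl))
    have h2 : FF G (w.map Sum.inr) none = w.map Sy.t := by
      simp only [FF, Option.map_none, Option.toList_none, append_nil, map_map]
      rfl
    rw [h2] at h1
    exact h1

/-- a terminal word as a form -/
def trm (w : List T) : List (SM G) := w.map Sy.t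

theorem word_split {N1 N2 : Type} (A1 : N1) (A2 : N2) (u1 w1 : List (N1 ⊕ T))
    (u2 w2 : List (N2 ⊕ T)) :
    word (u1 ++ Sum.inl A1 :: w1, u2 ++ Sum.inl A2 :: w2) =
      (u1.map Pool.Agent.Q316.EM.e1 ++ Sy.a A1 :: (w1.map Pool.Agent.Q316.EM.e1 ++
      u2.map Pool.Agent.Q316.EM.e2)) ++ Sy.b A2 :: w2.map Pool.Agent.Q316.EM.e2 := by
  simp [word, Pool.Agent.Q316.EM.e1, Pool.Agent.Q316.EM.e2]

theorem word_split' {N1 N2 : Type} (v1 u1 w1 : List (N1 ⊕ T)) (v2 u2 w2 : List (N2 ⊕ T)) :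
    word (u1 ++ v1 ++ w1, u2 ++ v2 ++ w2) =
      u1.map Pool.Agent.Q316.EM.e1 ++ (v1.map Pool.Agent.Q316.EM.e1 ++
      ((w1.map Pool.Agent.Q316.EM.e1 ++ u2.map Pool.Agent.Q316.EM.e2) ++
        (v2.map Pool.Agent.Q316.EM.e2 ++ w2.map Pool.Agent.Q316.EM.e2))) := by
  simp [word]

theorem tg_cases {X' Y' : List (SM G)} (h : (toEG G).Step false X' Y') :
    ∃ (A1 : G.N) (A2 : Ctl G) (v1 : List (G.N ⊕ T)) (v2 : List (Ctl G ⊕ T))
      (u1 w1 : List (G.N ⊕ T)) (u2 w2 : List (Ctl G ⊕ T)), ((A1, A2), v1, v2) ∈ RM G ∧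
      X' = (u1.map Pool.Agent.Q316.EM.e1 ++ Sy.a A1 :: (w1.map Pool.Agent.Q316.EM.e1 ++
        u2.map Pool.Agent.Q316.EM.e2)) ++ Sy.b A2 :: w2.map Pool.Agent.Q316.EM.e2 ∧
      Y' = u1.map Pool.Agent.Q316.EM.e1 ++ (v1.map Pool.Agent.Q316.EM.e1 ++
        ((w1.map Pool.Agent.Q316.EM.e1 ++ u2.map Pool.Agent.Q316.EM.e2) ++
          (v2.map Pool.Agent.Q316.EM.e2 ++ w2.map Pool.Agent.Q316.EM.e2))) := by
  obtain ⟨A1, A2, v1, v2, u1, w1, u2, w2, hr, hx, hy, _⟩ := h
  exact ⟨A1, A2, v1, v2, u1, w1, u2, w2, hr, hx.trans (word_split _ _ _ _ _ _),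
    hy.trans (word_split' _ _ _ _ _ _)⟩

def InvM (X' : List (SM G)) : Prop :=
  (∃ X c, X' = FF G X (some c) ∧ ∀ Y, Apps c.1 X Y → ReflTransGen G.Step [Sum.inl G.S] Y) ∨
    ∃ X, X' = FF G X none ∧ ReflTransGen G.Step [Sum.inl G.S] X

theorem e1_split {X : List (G.N ⊕ T)} {L1 L2 : List (SM G)} {A : G.N}
    (h : X.map Pool.Agent.Q316.EM.e1 = L1 ++ Sy.a A :: L2) :
    ∃ u w, X = u ++ Sum.inl A :: w ∧ L1 = u.map Pool.Agent.Q316.EM.e1 ∧
      L2 = w.map Pool.Agent.Q316.EM.e1 := by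
  obtain ⟨u, X', rfl, h1, h2⟩ := List.map_eq_append_iff.1 h
  obtain ⟨s, w, rfl, h3, h4⟩ := List.map_eq_cons_iff.1 h2
  rcases s with B | y
  · simp only [Pool.Agent.Q316.EM.e1, Sy.a.injEq] at h3
    exact ⟨u, w, by rw [h3], h1.symm, h4.symm⟩
  · simp [Pool.Agent.Q316.EM.e1] at h3

theorem no_b (X : List (G.N ⊕ T)) (B : Ctl G) :
    Sy.b B ∉ (X.map Pool.Agent.Q316.EM.e1 : List (SM G)) := by
  intro h
  obtain ⟨s, _, hs⟩ := mem_map.1 h
  rcases s with A | y <;> simp [Pool.Agent.Q316.EM.e1] at hs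

theorem b_last {L1 L2 R : List (SM G)} {B c : Ctl G} (hR : Sy.b B ∉ R)
    (h : L1 ++ Sy.b B :: L2 = R ++ [.b c]) : L2 = [] ∧ L1 = R ∧ B = c := by
  rcases List.append_eq_append_iff.1 h with ⟨as, h1, h2⟩ | ⟨bs, h1, h2⟩
  · cases as with
    | nil =>
      rw [append_nil] at h1
      rw [nil_append, cons.injEq] at h2
      exact ⟨h2.2, h1.symm, by simpa using h2.1⟩
    | cons s as =>
      exfalso
      rw [cons_append, cons.injEq] at h2
      exact hR (by rw [h1, ← h2.1]; simp)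
  · cases bs with
    | nil =>
      rw [append_nil] at h1
      rw [nil_append, cons.injEq] at h2
      exact ⟨h2.2.symm, h1, by simpa using h2.1.symm⟩
    | cons s bs =>
      exfalso
      have := congrArg List.length h2
      simp at this

theorem invM_step {X' Y' : List (SM G)} (hX : InvM G X') (h : (toEG G).Step false X' Y') :
    InvM G Y' := by
  obtain ⟨A1, A2, v1, v2, u1, w1, u2, w2, hr, hx', hy'⟩ := tg_cases G h
  rcases hX with ⟨X, c, hF, hX⟩ | ⟨X, hF, _⟩
  · have hF' : X' = X.map Pool.Agent.Q316.EM.e1 ++ [.b c] := hF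
    rw [hx'] at hF'
    obtain ⟨h1, h2, rfl⟩ := b_last G (no_b G X _) hF'
    rw [h1, append_nil] at hy'
    generalize (w1.map Pool.Agent.Q316.EM.e1 ++ u2.map Pool.Agent.Q316.EM.e2) = R at h2 hy'
    obtain ⟨u, w, rfl, g1, rfl⟩ := e1_split G h2.symm
    rw [g1] at hy'
    obtain ⟨c', d, r, hcd, hd, h3, h4, h5⟩ := hr
    simp only [Prod.mk.injEq] at h3 h4 h5
    obtain ⟨rfl, rfl⟩ := h3
    subst h4
    have hmain : ∀ Y, Apps (tl G d).1 (u ++ r.2 ++ w) Y →
        ReflTransGen G.Step [Sum.inl G.S] Y := by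
      intro Y hY
      have hdr : d.1 = r :: (tl G d).1 := by
        show d.1 = r :: d.1.tail
        cases hdd : d.1 with
        | nil => rw [hdd] at hd; simp at hd
        | cons a b => rw [hdd] at hd; simp at hd; rw [hd]; rfl
      have happ : Apps d.1 (u ++ Sum.inl r.1 :: w) Y := by
        rw [hdr]
        exact ⟨_, ⟨u, w, rfl, rfl⟩, hY⟩
      rcases hcd with rfl | ⟨hc, hd'⟩
      · exact hX Y happ
      · have h6 : ReflTransGen G.Step [Sum.inl G.S] (u ++ Sum.inl r.1 :: w) := by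
          apply hX
          rw [hc]
          rfl
        exact h6.tail ⟨d.1, hd', happ⟩
    rcases h5 with rfl | ⟨h5, rfl⟩
    · left
      refine ⟨u ++ r.2 ++ w, tl G d, ?_, hmain⟩
      rw [hy']
      simp only [FF, map_append, Option.map_some, Option.toList_some, append_assoc, map_cons,
        map_nil]
      rfl
    · right
      refine ⟨u ++ r.2 ++ w, ?_, hmain _ (by rw [h5]; rfl)⟩
      rw [hy']
      simp only [FF, map_append, Option.map_none, Option.toList_none, append_assoc, map_nil,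
        append_nil]
  · exfalso
    have hF' : X' = X.map Pool.Agent.Q316.EM.e1 := by rw [hF]; simp [FF]
    apply no_b G X A2
    rw [← hF', hx']
    simp

theorem mat_sup : (toEG G).lang false ⊆ G.lang := by
  rintro w (hw | ⟨v, hv, hd⟩)
  · exact absurd hw (Set.notMem_empty _)
  · have hv' : v = ([.inl G.S], [.inl ⟨[], Or.inl rfl⟩]) := hv
    subst hv'
    have key : ∀ X, ReflTransGen ((toEG G).Step false)
        (word ([.inl G.S], [.inl ⟨[], Or.inl rfl⟩])) X → InvM G X := by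
      intro X hX
      induction hX with
      | refl =>
        refine Or.inl ⟨[.inl G.S], ⟨[], Or.inl rfl⟩, rfl, ?_⟩
        intro Y hY
        have : [Sum.inl G.S] = Y := hY
        rw [this]
      | tail _ h ih => exact invM_step G ih h
    have hd' : InvM G (trm G w) := key _ hd
    rcases hd' with ⟨X, c, h, _⟩ | ⟨X, h, hX⟩
    · exfalso
      have h1 : (Sy.b c : SM G) ∈ FF G X (some c) := by simp [FF]
      rw [← h] at h1
      simp [trm] at h1
    · have h1 : (X.map Pool.Agent.Q316.EM.e1 : List (SM G)) = w.map Sy.t := by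
        have : FF G X none = X.map Pool.Agent.Q316.EM.e1 := by simp [FF]
        rw [← this, ← h]
        rfl
      have h2 : ∀ (w : List T) (X : List (G.N ⊕ T)),
          (X.map Pool.Agent.Q316.EM.e1 : List (SM G)) = w.map Sy.t → X = w.map Sum.inr := by
        intro w
        induction w with
        | nil => intro X h1; simpa using h1
        | cons y w ih =>
          intro X h1
          cases X with
          | nil => simp at h1
          | cons s X =>
            rw [map_cons, map_cons, cons.injEq] at h1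
            rcases s with p | z
            · simp [Pool.Agent.Q316.EM.e1] at h1
            · simp only [Pool.Agent.Q316.EM.e1, Sy.t.injEq] at h1
              rw [map_cons, ih _ h1.2, h1.1]
      rw [h2 _ _ h1] at hX
      exact hX

end

/-- Matrix languages are generated by even matrix grammars of degree 2 under mode 0. -/
theorem mat_sub_fam : MAT T ⊆ Fam false T := by
  rintro L ⟨G, rfl⟩
  exact ⟨toEven (toEG G), by
    rw [toEven_lang]
    exact Set.Subset.antisymm (mat_sub G) (mat_sup G)⟩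

end Pool.Agent.Q316.EM.Deg
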