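import Pool.Agent.Q316.EM.Deg

/-!
# Mode 1 simulates mode 0

Every nonterminal gets two copies, which can be exchanged at any time. Under mode 1 every occurrence
of a nonterminal can be made the leftmost occurrence of its copy.
-/

set_option autoImplicit false

namespace Pool.Agent.Q316.EM.Deg

open List
open Relation (ReflTransGen)

variable {T : Type}

def dbl {N : Type} : N ⊕ T → (N × Bool) ⊕ T
  | .inl A => .inl (A, false)
  | .inr x => .inr x

def und {N : Type} : (N × Bool) ⊕ T → N ⊕ T
  | .inl p => .inl p.1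
  | .inr x => .inr x

theorem und_dbl {N : Type} (x : List (N ⊕ T)) : (x.map dbl).map und = x := by
  rw [map_map]
  have : (und ∘ dbl : N ⊕ T → N ⊕ T) = id := by
    funext s
    rcases s with A | y <;> rfl
  rw [this, map_id]

theorem inComp_und {N : Type} {n : ℕ} {comp : N → Fin n} {i : Fin n}
    {x : List ((N × Bool) ⊕ T)} :
    InComp (fun p : N × Bool => comp p.1) i x ↔ InComp comp i (x.map und) := by
  constructor
  · intro h A hA
    rw [mem_map] at hA
    obtain ⟨s, hs, hs'⟩ := hA
    rcases s with p | y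
    · simp only [und, Sum.inl.injEq] at hs'
      rw [← hs']
      exact h p hs
    · simp [und] at hs'
  · intro h p hp
    exact h p.1 (mem_map.2 ⟨_, hp, rfl⟩)

variable (G : EvenGrammar T)

def R1 : Set ((Fin G.n → G.N × Bool) × (Fin G.n → List ((G.N × Bool) ⊕ T))) :=
  (fun x : ((Fin G.n → G.N) × (Fin G.n → List (G.N ⊕ T))) × (Fin G.n → Bool) =>
    ((fun i => (x.1.1 i, x.2 i)), fun i => (x.1.2 i).map dbl)) '' (G.rules ×ˢ Set.univ)

def R2 : Set ((Fin G.n → G.N × Bool) × (Fin G.n → List ((G.N × Bool) ⊕ T))) :=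
  (fun x : (Fin G.n → G.N) × (Fin G.n → Bool) × (Fin G.n → Bool) =>
    ((fun i => (x.1 i, x.2.1 i)), fun i => [Sum.inl (x.1 i, x.2.2 i)])) ''
    {x | ∀ i, G.comp (x.1 i) = i}

/-- the grammar with two copies of each nonterminal -/
def DD : EvenGrammar T where
  n := G.n
  hn := G.hn
  N := G.N × Bool
  fin := by
    have := G.fin
    infer_instance
  comp p := G.comp p.1
  term := G.term
  start := (fun v i => (v i).map dbl) '' G.start
  rules := R1 G ∪ R2 G
  finT := G.finT
  finS := G.finS.image _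
  finR := by
    have := G.fin
    refine Set.Finite.union ?_ ?_
    · exact (G.finR.prod Set.finite_univ).image _
    · exact (Set.toFinite _).image _
  hstart := by
    rintro _ ⟨v, hv, rfl⟩ i
    obtain ⟨h1, A, hA⟩ := G.hstart v hv i
    refine ⟨?_, (A, false), mem_map.2 ⟨_, hA, rfl⟩⟩
    rw [inComp_und, und_dbl]
    exact h1
  hrules := by
    rintro _ (⟨⟨r, b⟩, ⟨hr, _⟩, rfl⟩ | ⟨⟨A, b, b'⟩, hA, rfl⟩) i
    · obtain ⟨h1, h2⟩ := G.hrules r hr i
      refine ⟨h1, ?_⟩
      rw [inComp_und, und_dbl]
      exact h2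
    · refine ⟨hA i, ?_⟩
      intro p hp
      rw [mem_singleton, Sum.inl.injEq] at hp
      rw [hp]
      exact hA i

theorem dd_cases {X Y : List ((G.N × Bool) ⊕ T)} (h : (DD G).Step true X Y) :
    ∃ r ∈ R1 G ∪ R2 G, ∃ u w : Fin G.n → List ((G.N × Bool) ⊕ T),
      (∀ i, InComp G.comp i ((u i).map und) ∧ InComp G.comp i ((w i).map und)) ∧
      X = cat (fun i => u i ++ Sum.inl (r.1 i) :: w i) ∧
      Y = cat (fun i => u i ++ r.2 i ++ w i) := by
  obtain ⟨r, hr, u, w, hc, hX, hY, _⟩ := h
  exact ⟨r, hr, u, w, fun i => ⟨inComp_und.1 (hc i).1, inComp_und.1 (hc i).2⟩, hX, hY⟩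

theorem dd_of {r : (Fin G.n → G.N × Bool) × (Fin G.n → List ((G.N × Bool) ⊕ T))}
    (hr : r ∈ R1 G ∪ R2 G) (u w : Fin G.n → List ((G.N × Bool) ⊕ T))
    (hc : ∀ i, InComp G.comp i ((u i).map und) ∧ InComp G.comp i ((w i).map und))
    (h : ∀ i, Sum.inl (r.1 i) ∉ u i) :
    (DD G).Step true (cat (fun i => u i ++ Sum.inl (r.1 i) :: w i))
      (cat (fun i => u i ++ r.2 i ++ w i)) :=
  ⟨r, hr, u, w, fun i => ⟨inComp_und.2 (hc i).1, inComp_und.2 (hc i).2⟩, rfl, rfl, fun _ => h⟩

theorem sound_step {X Y : List ((G.N × Bool) ⊕ T)} (h : (DD G).Step true X Y) :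
    ReflTransGen (G.Step false) (X.map und) (Y.map und) := by
  obtain ⟨r, hr, u, w, hc, rfl, rfl⟩ := dd_cases G h
  rcases hr with ⟨⟨⟨A, v⟩, b⟩, ⟨hr, _⟩, rfl⟩ | ⟨⟨A, b, b'⟩, hA, rfl⟩
  · dsimp only
    refine ReflTransGen.single ⟨(A, v), hr, fun i => (u i).map und, fun i => (w i).map und,
      hc, ?_, ?_, by simp⟩
    · rw [map_cat]
      congr 1
      funext i
      rw [map_append, map_cons]
      rfl
    · rw [map_cat]
      congr 1
      funext i
      rw [map_append, map_append, und_dbl]
  · dsimp only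
    have : (cat fun i => u i ++ Sum.inl (A i, b i) :: w i).map und =
        (cat fun i => u i ++ [Sum.inl (A i, b' i)] ++ w i).map und := by
      rw [map_cat, map_cat]
      congr 1
      funext i
      simp only [map_append, map_cons, map_nil, append_assoc, cons_append, nil_append]
      rfl
    rw [this]

theorem sound : (DD G).lang true ⊆ G.lang false := by
  rintro w (hw | ⟨_, ⟨v, hv, rfl⟩, hd⟩)
  · exact Or.inl hw
  · right
    refine ⟨v, hv, ?_⟩
    have h1 := ReflTransGen.lift' (p := G.Step false) (List.map und)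
      (fun _ _ h => sound_step G h) _ _ hd
    have h2 : (cat fun i => (v i).map dbl).map und = cat v := by
      rw [map_cat]
      congr 1
      funext i
      exact und_dbl _
    have h3 : (w.map Sum.inr : List ((G.N × Bool) ⊕ T)).map und = w.map Sum.inr := by
      rw [map_map]; rfl
    rw [← h2, ← h3]
    exact h1

open Classical in
/-- the number of the occurrences of `s` -/
noncomputable def cnt {α : Type} (s : α) (x : List α) : ℕ := x.countP fun r => decide (r = s)

theorem local_move {N : Type} (A : N) (b : Bool) (u w : List ((N × Bool) ⊕ T)) :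
    ∃ p q u1 b', u ++ Sum.inl (A, b) :: w = p ++ Sum.inl (A, b) :: q ∧ Sum.inl (A, b) ∉ p ∧
      p ++ [Sum.inl (A, b')] ++ q = u1 ++ Sum.inl (A, b) :: w ∧ u1.map und = u.map und ∧
      cnt (Sum.inl (A, b)) u1 ≤ cnt (Sum.inl (A, b)) u ∧
      (Sum.inl (A, b) ∈ u → cnt (Sum.inl (A, b)) u1 < cnt (Sum.inl (A, b)) u) := by
  classical
  by_cases h : Sum.inl (A, b) ∈ u
  · obtain ⟨p, q, rfl, hp⟩ := List.eq_append_cons_of_mem h
    have hlt : cnt (Sum.inl (A, b)) (p ++ Sum.inl (A, !b) :: q) <
        cnt (Sum.inl (A, b)) (p ++ Sum.inl (A, b) :: q) := by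
      have h1 : ¬ ((Sum.inl (A, !b) : (N × Bool) ⊕ T) = Sum.inl (A, b)) := by
        intro h
        rw [Sum.inl.injEq, Prod.mk.injEq] at h
        cases b <;> simp at h
      simp [cnt, countP_append, countP_cons]
    refine ⟨p, q ++ Sum.inl (A, b) :: w, p ++ Sum.inl (A, !b) :: q, !b, by simp, hp, by simp, ?_,
      hlt.le, fun _ => hlt⟩
    simp only [map_append, map_cons]
    rfl
  · exact ⟨u, w, u, b, rfl, h, by simp, rfl, le_rfl, fun h' => absurd h' h⟩

theorem access (A : Fin G.n → G.N) (hA : ∀ i, G.comp (A i) = i) (b : Fin G.n → Bool) (k : ℕ) :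
    ∀ u w : Fin G.n → List ((G.N × Bool) ⊕ T),
      (∀ i, InComp G.comp i ((u i).map und)) → (∀ i, InComp G.comp i ((w i).map und)) →
      ∑ i, cnt (Sum.inl (A i, b i)) (u i) = k →
      ∃ u' : Fin G.n → List ((G.N × Bool) ⊕ T), (∀ i, (u' i).map und = (u i).map und) ∧
        (∀ i, Sum.inl (A i, b i) ∉ u' i) ∧
        ReflTransGen ((DD G).Step true) (cat fun i => u i ++ Sum.inl (A i, b i) :: w i)
          (cat fun i => u' i ++ Sum.inl (A i, b i) :: w i) := by
  induction k using Nat.strong_induction_on with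
  | _ k ih =>
    intro u w hu hw hk
    by_cases hall : ∀ i, Sum.inl (A i, b i) ∉ u i
    · exact ⟨u, fun _ => rfl, hall, ReflTransGen.refl⟩
    · push Not at hall
      obtain ⟨i₀, hi₀⟩ := hall
      have hm := fun i => local_move (T := T) (A i) (b i) (u i) (w i)
      choose p q u1 b' h1 h2 h3 h4 h5 h6 using hm
      have hlt : ∑ i, cnt (Sum.inl (A i, b i)) (u1 i) < ∑ i, cnt (Sum.inl (A i, b i)) (u i) :=
        Finset.sum_lt_sum (fun i _ => h5 i) ⟨i₀, Finset.mem_univ _, h6 i₀ hi₀⟩
      have hall' : ∀ i, InComp G.comp i ((u i ++ Sum.inl (A i, b i) :: w i).map und) := by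
        intro i B hB
        rw [map_append, map_cons, mem_append, mem_cons] at hB
        rcases hB with hB | hB | hB
        · exact hu i B hB
        · simp only [und, Sum.inl.injEq] at hB
          rw [hB]
          exact hA i
        · exact hw i B hB
      have hcp : ∀ i, InComp G.comp i ((p i).map und) := by
        intro i B hB
        apply hall' i B
        rw [h1, map_append, mem_append]
        exact Or.inl hB
      have hcq : ∀ i, InComp G.comp i ((q i).map und) := by
        intro i B hB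
        apply hall' i B
        rw [h1, map_append, mem_append, map_cons]
        exact Or.inr (mem_cons_of_mem _ hB)
      obtain ⟨u', g1, g2, g3⟩ := ih _ (by rw [← hk]; exact hlt) u1 w
        (fun i => by rw [h4]; exact hu i) hw rfl
      refine ⟨u', fun i => by rw [g1, h4], g2, ReflTransGen.head ?_ g3⟩
      have hst := dd_of G (r := ((fun i => (A i, b i)), fun i => [Sum.inl (A i, b' i)]))
        (Or.inr ⟨(A, b, b'), hA, rfl⟩) p q (fun i => ⟨hcp i, hcq i⟩) h2
      have e1 : (fun i => u i ++ Sum.inl (A i, b i) :: w i) =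
        fun i => p i ++ Sum.inl (A i, b i) :: q i := funext h1
      have e2 : (fun i => u1 i ++ Sum.inl (A i, b i) :: w i) =
        fun i => p i ++ [Sum.inl (A i, b' i)] ++ q i := funext fun i => (h3 i).symm
      rw [e1, e2]
      exact hst

theorem complete_step {X Y : List (G.N ⊕ T)} (h : G.Step false X Y)
    {X' : List ((G.N × Bool) ⊕ T)} (hX : X'.map und = X) :
    ∃ Y', Y'.map und = Y ∧ ReflTransGen ((DD G).Step true) X' Y' := by
  obtain ⟨⟨A, v⟩, hr, u, w, hc, rfl, rfl, _⟩ := h
  obtain ⟨x, rfl, hx⟩ := lift_cat hX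
  have hA : ∀ i, G.comp (A i) = i := fun i => (G.hrules _ hr i).1
  have hsp : ∀ i, ∃ U b V, x i = U ++ Sum.inl (A i, b) :: V ∧ U.map und = u i ∧
      V.map und = w i := by
    intro i
    obtain ⟨U, V', h1, h2, h3⟩ := List.map_eq_append_iff.1 (hx i)
    obtain ⟨s, V, rfl, h4, h5⟩ := List.map_eq_cons_iff.1 h3
    rcases s with ⟨B, b⟩ | y
    · simp only [und, Sum.inl.injEq] at h4
      exact ⟨U, b, V, by rw [h1, h4], h2, h5⟩
    · simp [und] at h4
  choose U b V hxi hU hV using hsp
  obtain ⟨U', g1, g2, g3⟩ := access G A hA b _ U V (fun i => by rw [hU]; exact (hc i).1)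
    (fun i => by rw [hV]; exact (hc i).2) rfl
  have hx' : x = fun i => U i ++ Sum.inl (A i, b i) :: V i := funext hxi
  refine ⟨cat fun i => U' i ++ (v i).map dbl ++ V i, ?_, ?_⟩
  · have e : (fun i => (U' i ++ (v i).map dbl ++ V i).map und) =
        fun i => u i ++ v i ++ w i := by
      funext i
      rw [map_append, map_append, und_dbl, g1, hU, hV]
    have e0 := map_cat (und (N := G.N) (T := T)) (fun i => U' i ++ (v i).map dbl ++ V i)
    rw [e] at e0
    exact e0
  · rw [hx']
    exact g3.tail (dd_of G (r := ((fun i => (A i, b i)), fun i => (v i).map dbl))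
      (Or.inl ⟨((A, v), b), ⟨hr, trivial⟩, rfl⟩) U' V
      (fun i => ⟨by rw [g1, hU]; exact (hc i).1, by rw [hV]; exact (hc i).2⟩) g2)

theorem und_term {N : Type} {X : List ((N × Bool) ⊕ T)} {w : List T}
    (h : X.map und = w.map Sum.inr) : X = w.map Sum.inr := by
  induction w generalizing X with
  | nil => simpa using h
  | cons y w ih =>
    cases X with
    | nil => simp at h
    | cons s X =>
      rw [map_cons, map_cons, cons.injEq] at h
      rcases s with p | z
      · simp [und] at h
      · simp only [und, Sum.inr.injEq] at h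
        rw [map_cons, ih h.2, h.1]

/-- **Mode 1 simulates mode 0**, with the same degree. -/
theorem dd_lang : (DD G).lang true = G.lang false := by
  apply Set.Subset.antisymm (sound G)
  rintro w (hw | ⟨v, hv, hd⟩)
  · exact Or.inl hw
  · right
    refine ⟨_, ⟨v, hv, rfl⟩, ?_⟩
    have key : ∀ X, ReflTransGen (G.Step false) (cat v) X →
        ∃ X', X'.map und = X ∧
          ReflTransGen ((DD G).Step true) (cat fun i => (v i).map dbl) X' := by
      intro X hX
      induction hX with
      | refl =>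
        refine ⟨_, ?_, ReflTransGen.refl⟩
        have e0 := map_cat (und (N := G.N) (T := T)) (fun i => (v i).map dbl)
        simp only [und_dbl] at e0
        exact e0
      | tail _ h ih =>
        obtain ⟨X', h1, h2⟩ := ih
        obtain ⟨Y', h3, h4⟩ := complete_step G h h1
        exact ⟨Y', h3, h2.trans h4⟩
    obtain ⟨X', h1, h2⟩ := key _ hd
    rw [und_term h1] at h2
    exact h2

theorem fam_mono : Fam false T ⊆ Fam true T := by
  rintro L ⟨G, rfl⟩
  exact ⟨DD G, (dd_lang G).symm⟩

end Pool.Agent.Q316.EM.Deg
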