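import Pool.Agent.Q316.EM.Petri

/-!
# Even matrix grammars of arbitrary degree

Definitions, and: the weights of the words of a mode 0 language which are in a regular set contain
an infinite arithmetic progression if they are unbounded; under mode 1 the same holds for the
weights of all words.
-/

set_option autoImplicit false

namespace Pool.Agent.Q316.EM.Deg

open List
open Relation (ReflTransGen)
open Pool.Agent.Q316.EM (Net EntryLE)

/-- the word `v₁ v₂ ⋯ vₙ` -/
def cat {α : Type} {n : ℕ} (v : Fin n → List α) : List α := (List.ofFn v).flatten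

/-- all nonterminals of the word `x` belong to component `i` -/
def InComp {N T : Type} {n : ℕ} (comp : N → Fin n) (i : Fin n) (x : List (N ⊕ T)) : Prop :=
  ∀ A, Sum.inl A ∈ x → comp A = i

/-- An even matrix grammar of degree `n` with terminal alphabet `T`. The nonterminal alphabet of
component `i` is `{A | comp A = i}`; `term` and `start` are the rules `(S) → (v)` and
`(S) → (v₁ ⋯ vₙ)`, and `rules` are the rules `(A₁, …, Aₙ) → (v₁, …, vₙ)`. -/
structure EvenGrammar (T : Type) where
  n : ℕ
  hn : 1 ≤ n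
  N : Type
  fin : Finite N
  comp : N → Fin n
  term : Set (List T)
  start : Set (Fin n → List (N ⊕ T))
  rules : Set ((Fin n → N) × (Fin n → List (N ⊕ T)))
  finT : term.Finite
  finS : start.Finite
  finR : rules.Finite
  hstart : ∀ v ∈ start, ∀ i, InComp comp i (v i) ∧ ∃ A, Sum.inl A ∈ v i
  hrules : ∀ r ∈ rules, ∀ i, comp (r.1 i) = i ∧ InComp comp i (r.2 i)

variable {T : Type}

/-- A step: `u₁A₁w₁⋯uₙAₙwₙ` becomes `u₁v₁w₁⋯uₙvₙwₙ` (mode 0, `lm = false`); in mode 1
(`lm = true`) in addition `Aᵢ` does not occur in `uᵢ`. -/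
def EvenGrammar.Step (G : EvenGrammar T) (lm : Bool) (X Y : List (G.N ⊕ T)) : Prop :=
  ∃ r ∈ G.rules, ∃ u w : Fin G.n → List (G.N ⊕ T),
    (∀ i, InComp G.comp i (u i) ∧ InComp G.comp i (w i)) ∧
    X = cat (fun i => u i ++ Sum.inl (r.1 i) :: w i) ∧
    Y = cat (fun i => u i ++ r.2 i ++ w i) ∧
    (lm = true → ∀ i, Sum.inl (r.1 i) ∉ u i)

/-- The generated language. -/
def EvenGrammar.lang (G : EvenGrammar T) (lm : Bool) : Set (List T) :=
  {w | w ∈ G.term ∨ ∃ v ∈ G.start, ReflTransGen (G.Step lm) (cat v) (w.map Sum.inr)}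

/-- The languages over `T` generated by even matrix grammars of all degrees under mode 0
(`lm = false`) or mode 1 (`lm = true`). -/
def Fam (lm : Bool) (T : Type) : Set (Set (List T)) := {L | ∃ G : EvenGrammar T, L = G.lang lm}

/-! ### Concatenations -/

theorem cat_zero {α : Type} (v : Fin 0 → List α) : cat v = [] := by simp [cat]

theorem cat_succ {α : Type} {n : ℕ} (v : Fin (n + 1) → List α) :
    cat v = v 0 ++ cat (fun i => v i.succ) := by
  simp [cat, List.ofFn_succ]

theorem map_cat {α β : Type} (f : α → β) {n : ℕ} (v : Fin n → List α) :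
    (cat v).map f = cat (fun i => (v i).map f) := by
  induction n with
  | zero => simp [cat_zero]
  | succ n ih => rw [cat_succ, cat_succ, map_append, ih]

theorem mem_cat {α : Type} {n : ℕ} {v : Fin n → List α} {s : α} :
    s ∈ cat v ↔ ∃ i, s ∈ v i := by
  simp [cat, List.mem_flatten, List.mem_ofFn]

theorem lift_cat {α β : Type} {f : α → β} {n : ℕ} {X : List α} {x : Fin n → List β}
    (h : X.map f = cat x) : ∃ y : Fin n → List α, X = cat y ∧ ∀ i, (y i).map f = x i := by
  induction n generalizing X with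
  | zero =>
    rw [cat_zero, List.map_eq_nil_iff] at h
    exact ⟨fun i => i.elim0, by rw [h, cat_zero], fun i => i.elim0⟩
  | succ n ih =>
    rw [cat_succ] at h
    obtain ⟨X1, X2, rfl, h1, h2⟩ := List.map_eq_append_iff.1 h
    obtain ⟨y, rfl, hy⟩ := ih h2
    refine ⟨Fin.cons X1 y, ?_, fun i => ?_⟩
    · rw [cat_succ]; rfl
    · refine Fin.cases ?_ (fun j => ?_) i
      · exact h1
      · exact hy j

/-! ### Annotated words -/

section

variable {N σ : Type}

/-- the action of an annotated symbol on the states -/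
def act (δ : σ → T → σ) : (N × (σ → σ)) ⊕ T → σ → σ
  | .inl p => p.2
  | .inr x => fun q => δ q x

def val (δ : σ → T → σ) (X : List ((N × (σ → σ)) ⊕ T)) : σ → σ :=
  fun q => X.foldl (fun q s => act δ s q) q

theorem val_append (δ : σ → T → σ) (X Y : List ((N × (σ → σ)) ⊕ T)) :
    val δ (X ++ Y) = fun q => val δ Y (val δ X q) := by
  funext q
  simp [val]

theorem val_cat (δ : σ → T → σ) {n : ℕ} {x y : Fin n → List ((N × (σ → σ)) ⊕ T)}
    (h : ∀ i, val δ (x i) = val δ (y i)) : val δ (cat x) = val δ (cat y) := by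
  induction n with
  | zero => rw [cat_zero, cat_zero]
  | succ n ih => rw [cat_succ, cat_succ, val_append, val_append, h 0, ih fun i => h i.succ]

def fgt : (N × (σ → σ)) ⊕ T → N ⊕ T
  | .inl p => .inl p.1
  | .inr x => .inr x

open Classical in
/-- the number of the occurrences of the annotated nonterminals -/
noncomputable def mark (X : List ((N × (σ → σ)) ⊕ T)) : N × (σ → σ) → ℕ :=
  fun p => X.countP (fun s => decide (s = .inl p))

theorem mark_append (X Y : List ((N × (σ → σ)) ⊕ T)) : mark (X ++ Y) = mark X + mark Y := by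
  funext p
  simp [mark]

theorem mark_cat {n : ℕ} (x : Fin n → List ((N × (σ → σ)) ⊕ T)) (p : N × (σ → σ)) :
    mark (cat x) p = ∑ i, mark (x i) p := by
  induction n with
  | zero => simp [cat_zero, mark]
  | succ n ih => rw [cat_succ, mark_append, Fin.sum_univ_succ, Pi.add_apply, ih]

def wS (wt : T → ℕ) : (N × (σ → σ)) ⊕ T → ℕ
  | .inl _ => 0
  | .inr x => wt x

def W (wt : T → ℕ) (X : List ((N × (σ → σ)) ⊕ T)) : ℕ := (X.map (wS wt)).sum

theorem W_append (wt : T → ℕ) (X Y : List ((N × (σ → σ)) ⊕ T)) :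
    W wt (X ++ Y) = W wt X + W wt Y := by
  simp [W]

theorem W_cat (wt : T → ℕ) {n : ℕ} (x : Fin n → List ((N × (σ → σ)) ⊕ T)) :
    W wt (cat x) = ∑ i, W wt (x i) := by
  induction n with
  | zero => simp [cat_zero, W]
  | succ n ih => rw [cat_succ, W_append, Fin.sum_univ_succ, ih]

theorem mark_pos {X : List ((N × (σ → σ)) ⊕ T)} {p : N × (σ → σ)} (h : 1 ≤ mark X p) :
    Sum.inl p ∈ X := by
  classical
  unfold mark at h
  rw [Nat.succ_le_iff, countP_pos_iff] at h
  obtain ⟨s, hs, hs'⟩ := h
  simp only [decide_eq_true_eq] at hs'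
  rwa [hs'] at hs

theorem mark_zero {X : List ((N × (σ → σ)) ⊕ T)} (h : mark X = 0) :
    ∃ w : List T, X = w.map Sum.inr := by
  classical
  induction X with
  | nil => exact ⟨[], rfl⟩
  | cons s X ih =>
    have h1 : mark (s :: X) = mark [s] + mark X := by
      rw [← mark_append]; rfl
    rw [h1] at h
    obtain ⟨w, rfl⟩ := ih (by
      funext p
      have := congrFun h p
      simp only [Pi.add_apply, Pi.zero_apply] at this ⊢
      omega)
    rcases s with p | y
    · exfalso
      have := congrFun h p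
      simp only [Pi.add_apply, Pi.zero_apply] at this
      have h3 : mark ([.inl p] : List ((N × (σ → σ)) ⊕ T)) p = 1 := by simp [mark]
      omega
    · exact ⟨y :: w, rfl⟩

end

/-! ### The Petri net -/

section

variable (G : EvenGrammar T) {σ : Type} (δ : σ → T → σ) (wt : T → ℕ)

/-- annotated rules -/
def ATr (σ : Type) : Type :=
  {τ : (Fin G.n → G.N) × (Fin G.n → List ((G.N × (σ → σ)) ⊕ T)) //
    (τ.1, fun i => (τ.2 i).map fgt) ∈ G.rules}

theorem finite_lift {N : Type} [Finite N] [Finite T] [Finite σ] {n : ℕ}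
    (v : Fin n → List (N ⊕ T)) :
    {x : Fin n → List ((N × (σ → σ)) ⊕ T) | (fun i => (x i).map fgt) = v}.Finite := by
  have h : {x : Fin n → List ((N × (σ → σ)) ⊕ T) | (fun i => (x i).map fgt) = v} ⊆
      Set.pi Set.univ fun i => {x : List ((N × (σ → σ)) ⊕ T) | x.length = (v i).length} := by
    rintro x rfl i _
    simp
  exact (Set.Finite.pi' fun i => List.finite_length_eq _ _).subset (by
    intro x hx i
    exact h hx i trivial)

instance [Finite T] [Finite σ] : Finite (ATr G σ) := by
  have := G.fin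
  have h : {τ : (Fin G.n → G.N) × (Fin G.n → List ((G.N × (σ → σ)) ⊕ T)) |
      (τ.1, fun i => (τ.2 i).map fgt) ∈ G.rules}.Finite := by
    have h1 : {τ : (Fin G.n → G.N) × (Fin G.n → List ((G.N × (σ → σ)) ⊕ T)) |
      (τ.1, fun i => (τ.2 i).map fgt) ∈ G.rules} ⊆
      ⋃ r ∈ G.rules, {r.1} ×ˢ {x | (fun i => (x i).map fgt) = r.2} := by
      intro τ hτ
      rw [Set.mem_iUnion₂]
      exact ⟨_, hτ, rfl, rfl⟩
    refine (Set.Finite.biUnion G.finR ?_).subset h1
    intro r _
    exact (Set.finite_singleton _).prod (finite_lift _)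
  exact h.to_subtype

noncomputable def net : Net (G.N × (σ → σ)) (ATr G σ) where
  pre τ := fun p => ∑ i, mark ([.inl (τ.1.1 i, val δ (τ.1.2 i))] : List ((G.N × (σ → σ)) ⊕ T)) p
  post τ := fun p => ∑ i, mark (τ.1.2 i) p
  out τ := ∑ i, W wt (τ.1.2 i)

theorem val_term (w : List T) :
    val (N := G.N) δ (w.map Sum.inr) = fun q => w.foldl δ q := by
  funext q
  simp only [val, foldl_map]
  rfl

theorem W_term (w : List T) :
    W (N := G.N) (σ := σ) wt (w.map Sum.inr) = (w.map wt).sum := by
  simp only [W, map_map]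
  rfl

/-- from derivations to runs -/
theorem claimA {x : List (G.N ⊕ T)} {w : List T} {lm : Bool}
    (h : ReflTransGen (G.Step lm) x (w.map Sum.inr)) :
    ∃ (X : List ((G.N × (σ → σ)) ⊕ T)) (l : List _), X.map fgt = x ∧
      val δ X = (fun q => w.foldl δ q) ∧ (net G δ wt).Run (mark X) l 0 ∧
      W wt X + (net G δ wt).O l = (w.map wt).sum := by
  induction h using ReflTransGen.head_induction_on with
  | refl =>
    refine ⟨w.map Sum.inr, [], ?_, val_term G δ w, ?_, ?_⟩
    · rw [map_map]; rfl
    · have : mark (N := G.N) (σ := σ) (w.map Sum.inr) = 0 := by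
        funext p
        simp [mark]
      rw [this]
      exact .nil _
    · rw [W_term]
      simp [Net.O]
  | head h1 _ ih =>
    obtain ⟨⟨A, v⟩, hr, u, w', _, rfl, rfl, _⟩ := h1
    obtain ⟨Y, l, hY, hval, hrun, hW⟩ := ih
    dsimp only at hY
    obtain ⟨y, rfl, hy⟩ := lift_cat hY
    have hsp : ∀ i, ∃ U V W', y i = U ++ V ++ W' ∧ U.map fgt = u i ∧ V.map fgt = v i ∧
        W'.map fgt = w' i := by
      intro i
      obtain ⟨Y1, W', h1, h2, h3⟩ := List.map_eq_append_iff.1 (hy i)
      obtain ⟨U, V, rfl, h5, h6⟩ := List.map_eq_append_iff.1 h2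
      exact ⟨U, V, W', h1, h5, h6, h3⟩
    choose U V W' hyi hU hV hW' using hsp
    have hrule : (A, fun i => (V i).map fgt) ∈ G.rules := by
      have : (fun i => (V i).map fgt) = v := funext hV
      rw [this]
      exact hr
    let τ : ATr G σ := ⟨(A, V), hrule⟩
    set X : Fin G.n → List ((G.N × (σ → σ)) ⊕ T) :=
      fun i => U i ++ [.inl (A i, val δ (V i))] ++ W' i with hX
    have hpre : ∀ p, (net G δ wt).pre τ p =
        ∑ i, mark ([.inl (A i, val δ (V i))] : List ((G.N × (σ → σ)) ⊕ T)) p := fun _ => rfl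
    have hpost : ∀ p, (net G δ wt).post τ p = ∑ i, mark (V i) p := fun _ => rfl
    have hmX : ∀ p, mark (cat X) p = ∑ i, mark (U i) p + (net G δ wt).pre τ p +
        ∑ i, mark (W' i) p := by
      intro p
      rw [mark_cat, hpre, ← Finset.sum_add_distrib, ← Finset.sum_add_distrib]
      refine Finset.sum_congr rfl fun i _ => ?_
      rw [hX]
      simp only [mark_append, Pi.add_apply]
    have hmY : ∀ p, mark (cat y) p = ∑ i, mark (U i) p + (net G δ wt).post τ p +
        ∑ i, mark (W' i) p := by
      intro p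
      rw [mark_cat, hpost, ← Finset.sum_add_distrib, ← Finset.sum_add_distrib]
      refine Finset.sum_congr rfl fun i _ => ?_
      rw [hyi]
      simp only [mark_append, Pi.add_apply]
    refine ⟨cat X, (mark (cat X), τ) :: l, ?_, ?_, ?_, ?_⟩
    · rw [map_cat]
      congr 1
      funext i
      rw [hX]
      simp only [map_append, hU, hW', map_cons, map_nil, append_assoc, cons_append, nil_append]
      rfl
    · rw [← hval]
      apply val_cat
      intro i
      rw [hyi, hX]
      simp only [val_append]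
      rfl
    · refine .cons ?_ ?_
      · intro p
        show (net G δ wt).pre τ p ≤ mark (cat X) p
        rw [hmX]
        omega
      · convert hrun using 1
        funext p
        simp only [Pi.add_apply, Pi.sub_apply]
        rw [hmX, hmY]
        omega
    · have h3 : (net G δ wt).out τ = ∑ i, W wt (V i) := rfl
      have h4 : W wt (cat X) = ∑ i, W wt (U i) + ∑ i, W wt (W' i) := by
        rw [W_cat, ← Finset.sum_add_distrib]
        refine Finset.sum_congr rfl fun i _ => ?_
        have h1 : W wt ([.inl (A i, val δ (V i))] : List ((G.N × (σ → σ)) ⊕ T)) = 0 := rfl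
        simp only [hX, W_append, h1, add_zero]
      have h5 : W wt (cat y) = ∑ i, W wt (U i) + ∑ i, W wt (V i) + ∑ i, W wt (W' i) := by
        rw [W_cat, ← Finset.sum_add_distrib, ← Finset.sum_add_distrib]
        refine Finset.sum_congr rfl fun i _ => ?_
        rw [hyi]
        simp only [W_append]
      have h6 : (net G δ wt).O ((mark (cat X), τ) :: l) =
          ∑ i, W wt (V i) + (net G δ wt).O l := by
        rw [← h3]
        simp [Net.O]
      rw [← hW, h4, h5, h6]
      omega

/-- from runs to derivations; under mode 1 only without annotations -/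
theorem claimB {lm : Bool} (hlm : lm = true → Subsingleton (σ → σ)) {m c : G.N × (σ → σ) → ℕ}
    {l : List _} (h : (net G δ wt).Run m l c) :
    c = 0 → ∀ x : Fin G.n → List ((G.N × (σ → σ)) ⊕ T), mark (cat x) = m →
    (∀ i, InComp G.comp i ((x i).map fgt)) →
    ∃ w : List T, ReflTransGen (G.Step lm) (cat fun i => (x i).map fgt) (w.map Sum.inr) ∧
      val δ (cat x) = (fun q => w.foldl δ q) ∧
      W wt (cat x) + (net G δ wt).O l = (w.map wt).sum := by
  induction h with
  | nil m =>
    rintro rfl x hx _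
    obtain ⟨w, hw⟩ := mark_zero hx
    refine ⟨w, ?_, ?_, ?_⟩
    · rw [← map_cat, hw, map_map]
      exact ReflTransGen.refl
    · rw [hw, val_term]
    · rw [hw, W_term]
      simp [Net.O]
  | @cons m c τ l hp _ ih =>
    rintro hc x rfl hcomp
    obtain ⟨⟨A, v⟩, hr⟩ := τ
    have hmem : ∀ i, Sum.inl (A i, val δ (v i)) ∈ x i := by
      intro i
      have h1 : 1 ≤ mark (cat x) (A i, val δ (v i)) := by
        refine le_trans ?_ (hp _)
        show 1 ≤ ∑ j, mark ([.inl (A j, val δ (v j))] : List ((G.N × (σ → σ)) ⊕ T)) _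
        refine le_trans ?_ (Finset.single_le_sum
          (f := fun j => mark ([.inl (A j, val δ (v j))] : List ((G.N × (σ → σ)) ⊕ T))
            (A i, val δ (v i))) (fun _ _ => Nat.zero_le _) (Finset.mem_univ i))
        simp [mark]
      obtain ⟨j, hj⟩ := mem_cat.1 (mark_pos h1)
      have h2 : G.comp (A i) = j := hcomp j _ (mem_map.2 ⟨_, hj, rfl⟩)
      have h3 : G.comp (A i) = i := (G.hrules _ hr i).1
      rw [h3] at h2
      rw [h2]
      exact h2 ▸ hj
    have hsp : ∀ i, ∃ U W', x i = U ++ Sum.inl (A i, val δ (v i)) :: W' ∧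
        Sum.inl (A i, val δ (v i)) ∉ U := fun i => List.eq_append_cons_of_mem (hmem i)
    choose U W' hxi hnot using hsp
    have hmX : ∀ p, mark (cat x) p = ∑ i, mark (U i) p +
        (net G δ wt).pre ⟨(A, v), hr⟩ p + ∑ i, mark (W' i) p := by
      intro p
      have hpre : (net G δ wt).pre ⟨(A, v), hr⟩ p =
        ∑ i, mark ([.inl (A i, val δ (v i))] : List ((G.N × (σ → σ)) ⊕ T)) p := rfl
      rw [mark_cat, hpre, ← Finset.sum_add_distrib, ← Finset.sum_add_distrib]
      refine Finset.sum_congr rfl fun i _ => ?_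
      have : x i = U i ++ [.inl (A i, val δ (v i))] ++ W' i := by rw [hxi]; simp
      rw [this]
      simp only [mark_append, Pi.add_apply]
    have hmY : ∀ p, mark (cat fun i => U i ++ v i ++ W' i) p = ∑ i, mark (U i) p +
        (net G δ wt).post ⟨(A, v), hr⟩ p + ∑ i, mark (W' i) p := by
      intro p
      have hpost : (net G δ wt).post ⟨(A, v), hr⟩ p = ∑ i, mark (v i) p := rfl
      rw [mark_cat, hpost, ← Finset.sum_add_distrib, ← Finset.sum_add_distrib]
      refine Finset.sum_congr rfl fun i _ => ?_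
      simp only [mark_append, Pi.add_apply]
    have hcU : ∀ i, InComp G.comp i ((U i).map fgt) := by
      intro i B hB
      apply hcomp i B
      rw [hxi, map_append, mem_append]
      exact Or.inl hB
    have hcW : ∀ i, InComp G.comp i ((W' i).map fgt) := by
      intro i B hB
      apply hcomp i B
      rw [hxi, map_append, mem_append, map_cons]
      exact Or.inr (mem_cons_of_mem _ hB)
    obtain ⟨w, hw1, hw2, hw3⟩ := ih hc (fun i => U i ++ v i ++ W' i) (by
      funext p
      simp only [Pi.add_apply, Pi.sub_apply]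
      rw [hmX, hmY]
      omega) (by
      intro i B hB
      rw [map_append, map_append, mem_append, mem_append] at hB
      rcases hB with (hB | hB) | hB
      · exact hcU i B hB
      · exact (G.hrules _ hr i).2 B hB
      · exact hcW i B hB)
    refine ⟨w, ?_, ?_, ?_⟩
    · refine ReflTransGen.head ⟨_, hr, fun i => (U i).map fgt, fun i => (W' i).map fgt,
        fun i => ⟨hcU i, hcW i⟩, ?_, rfl, ?_⟩ (by simpa only [map_append] using hw1)
      · congr 1
        funext i
        rw [hxi]
        simp only [map_append, map_cons]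
        rfl
      · intro h i hmem
        have := hlm h
        rw [mem_map] at hmem
        obtain ⟨s, hs, hs'⟩ := hmem
        rcases s with ⟨B, f⟩ | y
        · simp only [fgt, Sum.inl.injEq] at hs'
          apply hnot i
          rw [← hs', Subsingleton.elim (val δ (v i)) f]
          exact hs
        · simp [fgt] at hs'
    · rw [← hw2]
      apply val_cat
      intro i
      have : x i = U i ++ [.inl (A i, val δ (v i))] ++ W' i := by rw [hxi]; simp
      rw [this]
      simp only [val_append]
      rfl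
    · have h3 : (net G δ wt).out ⟨(A, v), hr⟩ = ∑ i, W wt (v i) := rfl
      have h4 : W wt (cat x) = ∑ i, W wt (U i) + ∑ i, W wt (W' i) := by
        rw [W_cat, ← Finset.sum_add_distrib]
        refine Finset.sum_congr rfl fun i _ => ?_
        have h1 : x i = U i ++ [.inl (A i, val δ (v i))] ++ W' i := by rw [hxi]; simp
        rw [h1]
        simp only [W_append]
        have : W wt ([.inl (A i, val δ (v i))] : List ((G.N × (σ → σ)) ⊕ T)) = 0 := rfl
        omega
      have h5 : W wt (cat fun i => U i ++ v i ++ W' i) =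
          ∑ i, W wt (U i) + ∑ i, W wt (v i) + ∑ i, W wt (W' i) := by
        rw [W_cat, ← Finset.sum_add_distrib, ← Finset.sum_add_distrib]
        refine Finset.sum_congr rfl fun i _ => ?_
        simp only [W_append]
      rw [← hw3, h4, h5]
      simp only [Net.O, map_cons, sum_cons, h3]
      omega

/-- **Progressions.** -/
theorem progression [Finite T] [Finite σ] {lm : Bool} (hlm : lm = true → Subsingleton (σ → σ))
    (q₀ : σ) (F : Set σ)
    (hinf : {n : ℕ | ∃ w ∈ G.lang lm, w.foldl δ q₀ ∈ F ∧ (w.map wt).sum = n}.Infinite) :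
    ∃ u v : ℕ, 0 < v ∧ ∀ k : ℕ,
      u + k * v ∈ {n : ℕ | ∃ w ∈ G.lang lm, w.foldl δ q₀ ∈ F ∧ (w.map wt).sum = n} := by
  have := G.fin
  set S := {n : ℕ | ∃ w ∈ G.lang lm, w.foldl δ q₀ ∈ F ∧ (w.map wt).sum = n} with hS
  let St : Set (Fin G.n → List ((G.N × (σ → σ)) ⊕ T)) :=
    {x | (fun i => (x i).map fgt) ∈ G.start ∧ val δ (cat x) q₀ ∈ F}
  have hStfin : St.Finite := by
    have h1 : St ⊆ ⋃ r ∈ G.start, {x | (fun i => (x i).map fgt) = r} := by
      intro x hx
      rw [Set.mem_iUnion₂]
      exact ⟨_, hx.1, rfl⟩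
    refine (Set.Finite.biUnion G.finS ?_).subset h1
    intro r _
    exact finite_lift _
  let Sx : (Fin G.n → List ((G.N × (σ → σ)) ⊕ T)) → Set ℕ := fun x =>
    {n | ∃ l, (net G δ wt).Run (mark (cat x)) l 0 ∧ (net G δ wt).O l = n}
  have hsub : S ⊆ ((fun w : List T => (w.map wt).sum) '' G.term) ∪
      ⋃ x ∈ St, (fun n => W wt (cat x) + n) '' Sx x := by
    rintro n ⟨w, hw, hF, rfl⟩
    rcases hw with hw | ⟨v, hv, hd⟩
    · exact Or.inl ⟨w, hw, rfl⟩
    · right
      obtain ⟨X, l, h1, h2, h3, h4⟩ := claimA G δ wt hd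
      obtain ⟨x, rfl, hx⟩ := lift_cat h1
      rw [Set.mem_iUnion₂]
      refine ⟨x, ⟨?_, ?_⟩, (net G δ wt).O l, ⟨l, h3, rfl⟩, h4⟩
      · have : (fun i => (x i).map fgt) = v := funext hx
        rw [this]; exact hv
      · rw [h2]; exact hF
  have hex : ∃ x ∈ St, (Sx x).Infinite := by
    by_contra hcon
    push Not at hcon
    apply hinf
    refine ((G.finT.image _).union (Set.Finite.biUnion hStfin ?_)).subset hsub
    intro x hx
    exact (hcon x hx).image _
  obtain ⟨x, hx, hxinf⟩ := hex
  obtain ⟨u, v, hv, hk⟩ := (net G δ wt).progression _ _ hxinf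
  refine ⟨W wt (cat x) + u, v, hv, fun k => ?_⟩
  obtain ⟨l, hl, hl'⟩ := hk k
  obtain ⟨w, h1, h2, h3⟩ := claimB G δ wt hlm hl rfl x rfl (fun i => (G.hstart _ hx.1 i).1)
  refine ⟨w, Or.inr ⟨_, hx.1, h1⟩, ?_, ?_⟩
  · have := hx.2
    rw [h2] at this
    exact this
  · rw [← h3, hl']
    ring

end

end Pool.Agent.Q316.EM.Deg
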