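import Mathlib

/-!
# Outputs of runs of Petri nets

If the set of the outputs of the runs of a Petri net from one marking to another is infinite, then
it contains an infinite arithmetic progression (amalgamation of runs, by Higman's lemma).
-/

set_option autoImplicit false

namespace Pool.Agent.Q316.EM

open List

/-- A Petri net with places `P` and transitions `Tr`, with a natural number as output of each
transition. -/
structure Net (P Tr : Type) where
  pre : Tr → P → ℕ
  post : Tr → P → ℕ
  out : Tr → ℕ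

variable {P Tr : Type}

/-- A run, given by the list of the pairs (marking, transition which is fired there). -/
inductive Net.Run (N : Net P Tr) : (P → ℕ) → List ((P → ℕ) × Tr) → (P → ℕ) → Prop
  | nil (m : P → ℕ) : N.Run m [] m
  | cons {m c : P → ℕ} {t : Tr} {l : List ((P → ℕ) × Tr)} (h : N.pre t ≤ m)
      (hr : N.Run (m - N.pre t + N.post t) l c) : N.Run m ((m, t) :: l) c

/-- The output of a run. -/
def Net.O (N : Net P Tr) (l : List ((P → ℕ) × Tr)) : ℕ := (l.map fun x => N.out x.2).sum

theorem Net.O_append (N : Net P Tr) (l l' : List ((P → ℕ) × Tr)) :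
    N.O (l ++ l') = N.O l + N.O l' := by
  simp [Net.O]

theorem Net.Run.append {N : Net P Tr} {m c q : P → ℕ} {l l' : List ((P → ℕ) × Tr)}
    (h : N.Run m l c) (h' : N.Run c l' q) : N.Run m (l ++ l') q := by
  induction h with
  | nil m => exact h'
  | cons h1 _ ih => exact .cons h1 (ih h')

theorem Net.Run.shift {N : Net P Tr} {m c : P → ℕ} {l : List ((P → ℕ) × Tr)}
    (h : N.Run m l c) (d : P → ℕ) :
    ∃ l', N.Run (m + d) l' (c + d) ∧ N.O l' = N.O l := by
  induction h with
  | nil m => exact ⟨[], .nil _, rfl⟩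
  | @cons m c t l h1 _ ih =>
    obtain ⟨l', h2, h3⟩ := ih
    refine ⟨(m + d, t) :: l', .cons (le_trans h1 (le_add_of_nonneg_right zero_le)) ?_, ?_⟩
    · have : m + d - N.pre t + N.post t = m - N.pre t + N.post t + d := by
        funext p
        have : N.pre t p ≤ m p := h1 p
        simp only [Pi.add_apply, Pi.sub_apply]
        omega
      rw [this]
      exact h2
    · simp only [Net.O, map_cons, sum_cons] at h3 ⊢
      omega

theorem Net.Run.rep {N : Net P Tr} {m d d' : P → ℕ} {s : List ((P → ℕ) × Tr)}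
    (h : N.Run (m + d) s (m + d')) (k : ℕ) :
    ∃ l, N.Run (m + k • d) l (m + k • d') ∧ N.O l = k * N.O s := by
  induction k with
  | zero => exact ⟨[], by simpa using Net.Run.nil m, by simp [Net.O]⟩
  | succ k ih =>
    obtain ⟨l, h1, h2⟩ := ih
    obtain ⟨a, ha, ha'⟩ := h.shift (k • d)
    obtain ⟨b, hb, hb'⟩ := h1.shift d'
    refine ⟨a ++ b, ?_, ?_⟩
    · have e1 : m + (k + 1) • d = m + d + k • d := by
        rw [succ_nsmul]; abel
      have e2 : m + (k + 1) • d' = m + k • d' + d' := by
        rw [succ_nsmul]; abel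
      have e3 : m + d' + k • d = m + k • d + d' := by abel
      rw [e1, e2]
      rw [e3] at ha
      exact ha.append hb
    · rw [Net.O_append, ha', hb', h2]
      ring

/-- The order on the entries of runs. -/
def EntryLE (x y : (P → ℕ) × Tr) : Prop := x.1 ≤ y.1 ∧ x.2 = y.2

theorem Net.amplify (N : Net P Tr) {l l' : List ((P → ℕ) × Tr)}
    (h : SublistForall₂ EntryLE l l') : ∀ (m d q c : P → ℕ) (s : List ((P → ℕ) × Tr)),
    N.Run m l c → N.Run (m + d) s q → N.Run q l' c → ∀ k : ℕ, ∃ l'', N.Run (m + k • d) l'' c ∧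
      N.O l'' + k * N.O l = N.O l + k * (N.O s + N.O l') := by
  induction h with
  | @nil l' =>
    intro m d q c s h1 h2 h3 k
    cases h1
    have h4 := h2.append h3
    obtain ⟨a, ha, ha'⟩ := Net.Run.rep (m := m) (d := d) (d' := 0) (by simpa using h4) k
    refine ⟨a, by simpa using ha, ?_⟩
    rw [ha', Net.O_append]
    simp [Net.O]
  | @cons a b l1 l1' hab _ ih =>
    intro m d q c s h1 h2 h3 k
    cases h1 with
    | @cons _ _ t _ hp hr =>
      cases h3 with
      | @cons _ _ t' _ hp' hr' =>
        obtain ⟨hle, rfl⟩ := hab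
        dsimp only at hle
        obtain ⟨d', rfl⟩ : ∃ d', q = m + d' := ⟨q - m, (add_tsub_cancel_of_le hle).symm⟩
        have e1 : m + d' - N.pre t + N.post t = m - N.pre t + N.post t + d' := by
          funext p
          have : N.pre t p ≤ m p := hp p
          simp only [Pi.add_apply, Pi.sub_apply]
          omega
        rw [e1] at hr'
        obtain ⟨x, hx, hx'⟩ := ih (m - N.pre t + N.post t) d' _ c [] hr (.nil _) hr' k
        obtain ⟨y, hy, hy'⟩ := h2.rep k
        refine ⟨y ++ (m + k • d', t) :: x, hy.append (.cons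
          (le_trans hp (le_add_of_nonneg_right zero_le)) ?_), ?_⟩
        · have e2 : m + k • d' - N.pre t + N.post t = m - N.pre t + N.post t + k • d' := by
            funext p
            have : N.pre t p ≤ m p := hp p
            simp only [Pi.add_apply, Pi.sub_apply]
            omega
          rw [e2]
          exact hx
        · rw [Net.O_append, hy']
          simp only [Net.O, map_cons, sum_cons, map_nil, sum_nil] at hx' ⊢
          nlinarith [hx']
  | @cons_right b l1 l1' _ ih =>
    intro m d q c s h1 h2 h3 k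
    cases h3 with
    | @cons _ _ t' _ hp' hr' =>
      obtain ⟨x, hx, hx'⟩ := ih m d _ c (s ++ [(q, t')]) h1
        (h2.append (.cons hp' (.nil _))) hr' k
      refine ⟨x, hx, ?_⟩
      rw [hx', Net.O_append]
      simp only [Net.O, map_cons, sum_cons, map_nil, sum_nil]
      ring

theorem pwo [Finite P] [Finite Tr] :
    (Set.univ : Set ((P → ℕ) × Tr)).PartiallyWellOrderedOn EntryLE := by
  intro f
  obtain ⟨t, ht⟩ := Finite.exists_infinite_fiber (fun n => (f n).1.2)
  classical
  let g := Nat.orderEmbeddingOfSet ((fun n => (f n).1.2) ⁻¹' {t})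
  have hg : ∀ n, (f (g n)).1.2 = t := by
    intro n
    have := Set.mem_range_self (f := g) n
    rw [Nat.orderEmbeddingOfSet_range] at this
    exact this
  obtain ⟨i, j, hij, hle⟩ := (wellQuasiOrdered_le (α := P → ℕ)) (fun n => (f (g n)).1.1)
  exact ⟨g i, g j, g.strictMono hij, hle, by rw [hg, hg]⟩

instance : IsPreorder _ (EntryLE (P := P) (Tr := Tr)) where
  refl _ := ⟨le_rfl, rfl⟩
  trans _ _ _ h h' := ⟨h.1.trans h'.1, h.2.trans h'.2⟩

/-- An infinite set of outputs contains an infinite arithmetic progression. -/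
theorem Net.progression [Finite P] [Finite Tr] (N : Net P Tr) (c₀ c₁ : P → ℕ)
    (hinf : {n : ℕ | ∃ l, N.Run c₀ l c₁ ∧ N.O l = n}.Infinite) :
    ∃ u v : ℕ, 0 < v ∧ ∀ k : ℕ, u + k * v ∈ {n : ℕ | ∃ l, N.Run c₀ l c₁ ∧ N.O l = n} := by
  classical
  set S := {n : ℕ | ∃ l, N.Run c₀ l c₁ ∧ N.O l = n} with hS
  have : Infinite S := hinf.to_subtype
  let f := Nat.orderEmbeddingOfSet S
  have hf : ∀ n, f n ∈ S := by
    intro n
    have := Set.mem_range_self (f := f) n
    rwa [Nat.orderEmbeddingOfSet_range] at this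
  choose ρ h1 h2 using hf
  have hH := Set.PartiallyWellOrderedOn.partiallyWellOrderedOn_sublistForall₂
    (r := EntryLE (P := P) (Tr := Tr)) pwo
  obtain ⟨i, j, hij, hle⟩ := hH (fun n => ⟨ρ n, fun x _ => Set.mem_univ x⟩)
  have hlt : f i < f j := f.strictMono hij
  refine ⟨f i, f j - f i, by omega, fun k => ?_⟩
  obtain ⟨l, hl, hl'⟩ := N.amplify hle c₀ 0 c₀ c₁ [] (h1 i) (by simpa using Net.Run.nil c₀) (h1 j) k
  refine ⟨l, by simpa using hl, ?_⟩
  rw [h2, h2] at hl'
  simp only [Net.O, map_nil, sum_nil, zero_add] at hl'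
  obtain ⟨e, he⟩ : ∃ e, f j = f i + e := ⟨f j - f i, by omega⟩
  rw [he] at hl' ⊢
  simp only [Net.O]
  have : f i + e - f i = e := by omega
  rw [this]
  nlinarith [hl']

end Pool.Agent.Q316.EM
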